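import Mathlib

/-!
# A planar host for 3-SAT: definitions

The host formula is a rectangle of cells. A variable for each row runs through all cells of the row,
and each column carries from cell to cell the information whether a clause which is spelled out in
the column (one literal in a row) is satisfied. In each cell the row and the column cross by the
gadget of Lichtenstein (18 clauses, 4 + 5 variables); one further clause makes the step of the
column, and a unit clause asks that the information below the cell is true.
-/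

set_option autoImplicit false

namespace Pool.Agent.Y612.Sat

open Finset
open scoped Classical

/-- The clauses `cl i` for the `i` in `X` can be satisfied together. A clause is a set of literals;
the literal `(v, true)` is the variable `v` and `(v, false)` is its negation. -/
def Satisfiable {V I : Type} (cl : I → Finset (V × Bool)) (X : Finset I) : Prop :=
  ∃ σ : V → Bool, ∀ i ∈ X, ∃ l ∈ cl i, σ l.1 = l.2

/-- adjacency in the incidence graph -/
def incAdj {V I : Type} (cl : I → Finset (V × Bool)) : V ⊕ I → V ⊕ I → Prop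
  | Sum.inl v, Sum.inr i => ∃ b, (v, b) ∈ cl i
  | Sum.inr i, Sum.inl v => ∃ b, (v, b) ∈ cl i
  | Sum.inl _, Sum.inl _ => False
  | Sum.inr _, Sum.inr _ => False

/-- the incidence graph of a formula: a variable is adjacent to the clauses in which it occurs -/
def inc {V I : Type} (cl : I → Finset (V × Bool)) : SimpleGraph (V ⊕ I) where
  Adj := incAdj cl
  symm := ⟨by
    rintro (u | u) (v | v) h
    · exact h
    · exact h
    · exact h
    · exact h⟩
  loopless := ⟨by
    rintro (u | u) h
    · exact h
    · exact h⟩

/-- a drawing with straight lines without crossings -/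
def Drawing {V : Type} (P : SimpleGraph V) (f : V → ℝ × ℝ) : Prop :=
  Function.Injective f ∧ (∀ u v w, P.Adj u v → f w ∉ openSegment ℝ (f u) (f v)) ∧
    ∀ u v u' v', P.Adj u v → P.Adj u' v' → s(u, v) ≠ s(u', v') →
      Disjoint (openSegment ℝ (f u) (f v)) (openSegment ℝ (f u') (f v'))

/-- the variables: left and right sides of cells, upper and lower sides, six inside each cell -/
abbrev Var (R K : ℕ) : Type := (Fin R × Fin (K + 1)) ⊕ ((Fin (R + 1) × Fin K) ⊕ (Fin R × Fin K × Fin 6))

/-- the clauses: twenty in each cell -/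
abbrev Ix (R K : ℕ) : Type := Fin R × Fin K × Fin 20

/-- the ten variables of a cell: left, right, above, below, six inside -/
def lv {R K : ℕ} (i : Fin R) (j : Fin K) (k : Fin 10) : Var R K :=
  if k = 0 then Sum.inl (i, j.castSucc) else if k = 1 then Sum.inl (i, j.succ)
  else if k = 2 then Sum.inr (Sum.inl (i.castSucc, j)) else if k = 3 then Sum.inr (Sum.inl (i.succ, j))
  else Sum.inr (Sum.inr (i, j, ⟨(k - 4 : ℕ), by omega⟩))

/-- the clauses of a cell -/
def lc (s : Option Bool) (r : Bool) (k : Fin 20) : List (Fin 10 × Bool) :=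
  match k.val with
  | 0 => [(1, false), (4, false), (5, true)]
  | 1 => [(1, true), (5, false)]
  | 2 => [(4, true), (5, false)]
  | 3 => [(1, false), (2, true), (6, true)]
  | 4 => [(1, true), (6, false)]
  | 5 => [(2, false), (6, false)]
  | 6 => [(0, true), (2, true), (7, true)]
  | 7 => [(0, false), (7, false)]
  | 8 => [(2, false), (7, false)]
  | 9 => [(0, true), (4, false), (8, true)]
  | 10 => [(0, false), (8, false)]
  | 11 => [(4, true), (8, false)]
  | 12 => [(5, true), (6, true), (9, true)]
  | 13 => [(9, false), (7, true), (8, true)]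
  | 14 => [(5, false), (6, false)]
  | 15 => [(6, false), (7, false)]
  | 16 => [(7, false), (8, false)]
  | 17 => [(8, false), (5, false)]
  | 18 => (3, false) :: ((if r then [] else [(4, true)]) ++ (s.toList.map fun b => (1, b)))
  | _ => [(3, true)]

/-- the clauses of the host formula -/
noncomputable def cl {R K : ℕ} (sg : ℕ → ℕ → Option Bool) (rs : ℕ → ℕ → Bool) (c : Ix R K) :
    Finset (Var R K × Bool) :=
  ((lc (sg c.1 c.2.1) (rs c.1 c.2.1) c.2.2).map fun l => (lv c.1 c.2.1 l.1, l.2)).toFinset

theorem lc_length (s : Option Bool) (r : Bool) (k : Fin 20) : (lc s r k).length ≤ 3 := by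
  revert s r k
  decide

theorem cl_card {R K : ℕ} (sg : ℕ → ℕ → Option Bool) (rs : ℕ → ℕ → Bool) (c : Ix R K) :
    (cl sg rs c).card ≤ 3 := by
  refine (List.toFinset_card_le _).trans ?_
  rw [List.length_map]
  exact lc_length _ _ _

/-- the clause is true -/
def okc (τ : Fin 10 → Bool) (L : List (Fin 10 × Bool)) : Prop := ∃ l ∈ L, τ l.1 = l.2

instance (τ : Fin 10 → Bool) (L : List (Fin 10 × Bool)) : Decidable (okc τ L) :=
  decidable_of_iff (L.any (fun l => τ l.1 == l.2) = true) (by
    unfold okc
    simp [List.any_eq_true])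

theorem cl_ok {R K : ℕ} (sg : ℕ → ℕ → Option Bool) (rs : ℕ → ℕ → Bool) (σ : Var R K → Bool)
    (i : Fin R) (j : Fin K) (k : Fin 20) : (∃ l ∈ cl sg rs (i, j, k), σ l.1 = l.2) ↔
    okc (fun a => σ (lv i j a)) (lc (sg i j) (rs i j) k) := by
  unfold cl okc
  simp only [List.mem_toFinset, List.mem_map]
  constructor
  · rintro ⟨l, ⟨a, ha, rfl⟩, h⟩
    exact ⟨a, ha, h⟩
  · rintro ⟨a, ha, h⟩
    exact ⟨_, ⟨a, ha, rfl⟩, h⟩

theorem cross_bool : ∀ a1 a2 b1 b2 al be ga de xi : Bool,
    ((!a2 || !b2 || al) && (a2 || !al) && (b2 || !al) && (!a2 || b1 || be) && (a2 || !be) &&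
    (!b1 || !be) && (a1 || b1 || ga) && (!a1 || !ga) && (!b1 || !ga) && (a1 || !b2 || de) &&
    (!a1 || !de) && (b2 || !de) && (al || be || xi) && (!xi || ga || de) && (!al || !be) &&
    (!be || !ga) && (!ga || !de) && (!de || !al)) = true → a1 = a2 ∧ b1 = b2 := by
  decide

theorem cross {s : Option Bool} {r : Bool} {τ : Fin 10 → Bool}
    (h : ∀ k : Fin 20, k.val < 18 → okc τ (lc s r k)) : τ 0 = τ 1 ∧ τ 2 = τ 4 := by
  have h0 : okc τ [(1, false), (4, false), (5, true)] := h 0 (by decide)
  have h1 : okc τ [(1, true), (5, false)] := h 1 (by decide)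
  have h2 : okc τ [(4, true), (5, false)] := h 2 (by decide)
  have h3 : okc τ [(1, false), (2, true), (6, true)] := h 3 (by decide)
  have h4 : okc τ [(1, true), (6, false)] := h 4 (by decide)
  have h5 : okc τ [(2, false), (6, false)] := h 5 (by decide)
  have h6 : okc τ [(0, true), (2, true), (7, true)] := h 6 (by decide)
  have h7 : okc τ [(0, false), (7, false)] := h 7 (by decide)
  have h8 : okc τ [(2, false), (7, false)] := h 8 (by decide)
  have h9 : okc τ [(0, true), (4, false), (8, true)] := h 9 (by decide)
  have h10 : okc τ [(0, false), (8, false)] := h 10 (by decide)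
  have h11 : okc τ [(4, true), (8, false)] := h 11 (by decide)
  have h12 : okc τ [(5, true), (6, true), (9, true)] := h 12 (by decide)
  have h13 : okc τ [(9, false), (7, true), (8, true)] := h 13 (by decide)
  have h14 : okc τ [(5, false), (6, false)] := h 14 (by decide)
  have h15 : okc τ [(6, false), (7, false)] := h 15 (by decide)
  have h16 : okc τ [(7, false), (8, false)] := h 16 (by decide)
  have h17 : okc τ [(8, false), (5, false)] := h 17 (by decide)
  simp only [okc, List.mem_cons, List.not_mem_nil, or_false, exists_eq_or_imp,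
    exists_eq_left] at h0 h1 h2 h3 h4 h5 h6 h7 h8 h9 h10 h11 h12 h13 h14 h15 h16 h17
  apply cross_bool (τ 0) (τ 1) (τ 2) (τ 4) (τ 5) (τ 6) (τ 7) (τ 8) (τ 9)
  simp only [Bool.and_eq_true, Bool.or_eq_true, Bool.not_eq_true', or_assoc, and_assoc]
  exact ⟨h0, h1, h2, h3, h4, h5, h6, h7, h8, h9, h10, h11, h12, h13, h14, h15, h16, h17⟩

/-- the literal in a cell is true -/
def lit (s : Option Bool) (x : Bool) : Bool := s == some x

/-- the values of the variables of a cell -/
def loc (x r r' : Bool) (k : Fin 10) : Bool :=
  match k with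
  | 0 => x
  | 1 => x
  | 2 => r
  | 3 => r'
  | 4 => r
  | 5 => x && r
  | 6 => x && !r
  | 7 => !x && !r
  | 8 => !x && r
  | 9 => !x

theorem loc_ok : ∀ (s : Option Bool) (rs x r : Bool) (k : Fin 20), k ≠ 19 →
    okc (loc x r ((r && !rs) || lit s x)) (lc s rs k) := by
  decide

theorem step_ok : ∀ (s : Option Bool) (rs : Bool) (τ : Fin 10 → Bool), okc τ (lc s rs 18) →
    τ 3 = true → (rs = false ∧ τ 4 = true) ∨ s = some (τ 1) := by
  intro s rs τ h h3
  obtain ⟨l, hl, h⟩ := h
  have hl : l ∈ (3, false) :: ((if rs then [] else [(4, true)]) ++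
    (s.toList.map fun b => ((1 : Fin 10), b))) := hl
  simp only [List.mem_cons, List.mem_append, List.mem_map] at hl
  rcases hl with rfl | hl | ⟨b, hb, rfl⟩
  · rw [h3] at h
    exact absurd h (by decide)
  · cases rs
    · simp only [Bool.false_eq_true, if_false, List.mem_cons, List.not_mem_nil, or_false] at hl
      subst hl
      exact Or.inl ⟨rfl, h⟩
    · simp at hl
  · right
    rw [Option.mem_toList] at hb
    simp only at h
    rw [h]
    exact hb

theorem end_ok (s : Option Bool) (rs : Bool) (τ : Fin 10 → Bool) :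
    okc τ (lc s rs 19) ↔ τ 3 = true := by
  unfold okc lc
  simp

section

variable (sg : ℕ → ℕ → Option Bool) (rs : ℕ → ℕ → Bool)

/-- the information above row `i` in column `j` -/
def run (x : ℕ → Bool) (j : ℕ) : ℕ → Bool
  | 0 => false
  | i + 1 => (run x j i && !rs i j) || lit (sg i j) (x i)

/-- the clauses that are present -/
def XE {R K : ℕ} (E : Finset (Fin R × Fin K)) : Finset (Ix R K) :=
  univ.filter fun c => c.2.2 ≠ 19 ∨ (c.1, c.2.1) ∈ E

variable {R K : ℕ}

/-- the assignment -/
def asg (x : ℕ → Bool) : Var R K → Bool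
  | Sum.inl (i, _) => x i
  | Sum.inr (Sum.inl (i, j)) => run sg rs x j i
  | Sum.inr (Sum.inr (i, j, k)) =>
    loc (x i) (run sg rs x j i) false ⟨k + 4, by omega⟩

theorem asg_lv (x : ℕ → Bool) (i : Fin R) (j : Fin K) (a : Fin 10) : asg sg rs x (lv i j a) =
    loc (x i) (run sg rs x j i)
      ((run sg rs x j i && !rs i j) || lit (sg i j) (x i)) a := by
  fin_cases a <;> simp [lv, asg, loc, run]

theorem sat_iff (E : Finset (Fin R × Fin K)) (hr : ∀ j, rs 0 j = true) :
    Satisfiable (cl sg rs) (XE E) ↔ ∃ x : ℕ → Bool, ∀ c ∈ E, run sg rs x c.2 (c.1 + 1) = true := by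
  constructor
  · rintro ⟨σ, hσ⟩
    have hk : ∀ (i : Fin R) (j : Fin K) (k : Fin 20), k ≠ 19 →
        okc (fun a => σ (lv i j a)) (lc (sg i j) (rs i j) k) := by
      intro i j k hk
      rw [← cl_ok]
      exact hσ _ (Finset.mem_filter.2 ⟨mem_univ _, Or.inl hk⟩)
    have hcr : ∀ (i : Fin R) (j : Fin K), σ (Sum.inl (i, j.castSucc)) = σ (Sum.inl (i, j.succ)) ∧
        σ (Sum.inr (Sum.inl (i.castSucc, j))) = σ (lv i j 4) := by
      intro i j
      have := cross (τ := fun a => σ (lv i j a)) (s := sg i j) (r := rs i j) (fun k hk' => hk i j k (by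
        intro h
        subst h
        exact absurd hk' (by decide)))
      exact this
    have hrow : ∀ (i : Fin R) (j : ℕ) (hj : j < K + 1), σ (Sum.inl (i, ⟨j, hj⟩)) =
        σ (Sum.inl (i, 0)) := by
      intro i j
      induction j with
      | zero => intro _; rfl
      | succ j ih =>
        intro hj
        have h1 := (hcr i ⟨j, by omega⟩).1
        rw [← ih (by omega)]
        exact h1.symm
    refine ⟨fun i => if h : i < R then σ (Sum.inl (⟨i, h⟩, 0)) else false, ?_⟩
    set x : ℕ → Bool := fun i => if h : i < R then σ (Sum.inl (⟨i, h⟩, 0)) else false with hx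
    have key : ∀ (i : ℕ) (hi : i < R) (j : Fin K), σ (Sum.inr (Sum.inl (⟨i + 1, by omega⟩, j))) = true →
        run sg rs x j (i + 1) = true := by
      intro i
      induction i with
      | zero =>
        intro hi j h
        have h1 := step_ok _ _ _ (hk ⟨0, hi⟩ j 18 (by decide)) h
        rcases h1 with ⟨h1, -⟩ | h1
        · rw [hr] at h1
          exact absurd h1 (by decide)
        · unfold run
          rw [Bool.or_eq_true]
          right
          unfold lit
          rw [h1]
          have h2 : x 0 = σ (lv ⟨0, hi⟩ j 1) := by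
            rw [hx]
            simp only
            rw [dif_pos hi]
            exact (hrow _ _ j.succ.2).symm
          rw [h2]
          simp
      | succ i ih =>
        intro hi j h
        have h1 := step_ok _ _ _ (hk ⟨i + 1, hi⟩ j 18 (by decide)) h
        rcases h1 with ⟨h1, h2⟩ | h1
        · rw [run, Bool.or_eq_true, Bool.and_eq_true]
          left
          refine ⟨ih (by omega) j ?_, ?_⟩
          · have h3 := (hcr ⟨i + 1, hi⟩ j).2
            exact h3.trans h2
          · rw [h1]
            rfl
        · rw [run, Bool.or_eq_true]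
          right
          unfold lit
          rw [h1]
          have h2 : x (i + 1) = σ (lv ⟨i + 1, hi⟩ j 1) := by
            rw [hx]
            simp only
            rw [dif_pos hi]
            exact (hrow _ _ j.succ.2).symm
          rw [h2]
          simp
    rintro ⟨i, j⟩ hc
    refine key i i.2 j ?_
    have h1 := hσ (i, j, 19) (Finset.mem_filter.2 ⟨mem_univ _, Or.inr hc⟩)
    rw [cl_ok, end_ok] at h1
    exact h1
  · rintro ⟨x, hx⟩
    refine ⟨asg sg rs x, ?_⟩
    rintro ⟨i, j, k⟩ hc
    rw [cl_ok]
    have e : (fun a => asg sg rs x (lv i j a)) = loc (x i) (run sg rs x j i)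
        ((run sg rs x j i && !rs i j) || lit (sg i j) (x i)) := by
      funext a
      exact asg_lv sg rs x i j a
    rw [e]
    by_cases hk : k = 19
    · subst hk
      rw [end_ok]
      rcases (Finset.mem_filter.1 hc).2 with h | h
      · exact absurd rfl h
      · exact hx _ h
    · exact loc_ok _ _ _ _ k hk

end

end Pool.Agent.Y612.Sat
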