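import Pool.Agent.Y612.Sat.Csp
import Pool.Agent.Y612.Tsp.Conv

/-!
# Randomised circuits for satisfiability of subformulas of the host: the bound with parameters
-/

set_option autoImplicit false

namespace Pool.Agent.Y612.Sat

open Finset Pool.Agent.W969.MC Pool.Agent.H560R2 H630VC Pool.Agent.Y612.Tsp
open scoped Classical

/-- the input gates: the bits of a set, and constants -/
def bits (I : Type) : Set (Finset I → ℝ) :=
  {f | (∃ p : I, f = fun X => if p ∈ X then 1 else 0) ∨ ∃ c : ℝ, f = fun _ => c}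

section

variable {M0 C m q m' : ℕ} (h : Fin M0 → Fin C → Fin m)

theorem rpf_lt (d : Fin M0 × Fin C) {o : ℕ} (ho : o < M0 * (C * q)) :
    rpf h q d o < M0 * (C * q) := by
  obtain ⟨i, hi, c, hc, v, hv, rfl⟩ := code_surj ho
  have hr := rpf_eq h d ⟨i, hi⟩ ⟨c, hc⟩ v hv
  simp only at hr
  rw [hr]
  exact (rown_lt (occ h d (h ⟨i, hi⟩ ⟨c, hc⟩)).1.2 (occ h d (h ⟨i, hi⟩ ⟨c, hc⟩)).2.2 hv).1

theorem dig_lt {t c : ℕ} (ht : t < q ^ C) (hc : c < C) : dig C q t c < q := by
  unfold dig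
  rw [dif_pos ⟨ht, hc⟩]
  exact Fin.is_lt _

/-- the clauses of the instance -/
noncomputable def XI (d : Fin M0 × Fin C) (y : Fin m' → Set (Fin M0 × (Fin C → Fin q))) :
    Finset (Ix (m' * (M0 * (C * q))) (1 + M0 * (C * q) + q ^ C)) :=
  XE (univ.filter fun c => endc (M0 * (C * q)) C q (rpf h q d) (fb y) c.1 c.2)

/-- the host formula -/
noncomputable abbrev HC (m' q : ℕ) (d : Fin M0 × Fin C) :
    Ix (m' * (M0 * (C * q))) (1 + M0 * (C * q) + q ^ C) →
      Finset (Var (m' * (M0 * (C * q))) (1 + M0 * (C * q) + q ^ C) × Bool) :=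
  cl (sgc (M0 * (C * q)) C q (rpf h q d) (dig C q)) (rsc (M0 * (C * q)) C q)

theorem host_iff (d : Fin M0 × Fin C) (hq : 0 < q)
    (y : Fin m' → Set (Fin M0 × (Fin C → Fin q))) :
    Satisfiable (HC h m' q d) (XI h d y) ↔
      ¬ ∃ J, ∀ p : Fin m → Fin q, ∃ u ∈ tu h (gr p), u ∈ y J := by
  rw [← csp_iff h d hq y]
  have hM : 0 < M0 := by
    have := d.1.2
    omega
  have hC : 0 < C := by
    have := d.2.2
    omega
  exact cols_iff (A := M0 * (C * q)) (rpf h q d) (dig C q) (m' := m') rfl hM hq hC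
    (fun o ho => rpf_lt h d ho) (fun t ht c hc => dig_lt ht hc) (fb y)

/-- the bits of the instance -/
noncomputable def enc (d : Fin M0 × Fin C) (y : Fin m' → Set (Fin M0 × (Fin C → Fin q)))
    (p : Ix (m' * (M0 * (C * q))) (1 + M0 * (C * q) + q ^ C)) : Bool := decide (p ∈ XI h d y)

theorem toSet_enc (d : Fin M0 × Fin C) (y : Fin m' → Set (Fin M0 × (Fin C → Fin q))) :
    toSet (enc h d y) = XI h d y := by
  ext p
  unfold toSet enc
  simp

theorem mem_XI (d : Fin M0 × Fin C) (y : Fin m' → Set (Fin M0 × (Fin C → Fin q)))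
    (p : Ix (m' * (M0 * (C * q))) (1 + M0 * (C * q) + q ^ C)) : p ∈ XI h d y ↔
      p.2.2 ≠ 19 ∨ endc (M0 * (C * q)) C q (rpf h q d) (fb y) p.1 p.2.1 := by
  unfold XI XE
  rw [Finset.mem_filter, Finset.mem_filter]
  simp

theorem endc_mono {A : ℕ} {rp : ℕ → ℕ} {F F' : ℕ → ℕ → Prop} {i j : ℕ}
    (hF : F (i / (C * q)) (j - 1 - A) → F' (i / (C * q)) (j - 1 - A))
    (h : endc A C q rp F i j) : endc A C q rp F' i j := by
  rcases h with h | h | ⟨h1, h2, h3⟩
  · exact Or.inl h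
  · exact Or.inr (Or.inl h)
  · exact Or.inr (Or.inr ⟨h1, h2, hF h3⟩)

theorem enc_mono (d : Fin M0 × Fin C) (y y' : Fin m' → Set (Fin M0 × (Fin C → Fin q)))
    (hy : ∀ j, y j ⊆ y' j) : enc h d y ≤ enc h d y' := by
  intro p
  unfold enc
  by_cases h1 : p ∈ XI h d y
  · have h2 : p ∈ XI h d y' := by
      rw [mem_XI] at h1 ⊢
      rcases h1 with h1 | h1
      · exact Or.inl h1
      · refine Or.inr (endc_mono ?_ h1)
        rintro ⟨J, i, τ, e1, e2, e3⟩
        exact ⟨J, i, τ, e1, e2, hy J e3⟩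
    rw [decide_eq_true h1, decide_eq_true h2]
  · rw [decide_eq_false h1]
    exact Bool.false_le _

theorem enc_narrow (d : Fin M0 × Fin C)
    (y : Fin m' → Set (Fin M0 × (Fin C → Fin q))) (J : Fin m')
    (p : Ix (m' * (M0 * (C * q))) (1 + M0 * (C * q) + q ^ C)) :
    ∃ T' : Finset (Fin M0 × (Fin C → Fin q)), T'.card ≤ 1 ∧
      ∀ x x' : Set (Fin M0 × (Fin C → Fin q)), (∀ e ∈ T', e ∈ x → e ∈ x') →
        enc h d (Function.update y J x) p = true →
        enc h d (Function.update y J x') p = true := by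
  obtain ⟨b, hb⟩ : ∃ b : ℕ, b = (p.1 : ℕ) / (C * q) := ⟨_, rfl⟩
  obtain ⟨t, ht⟩ : ∃ t : ℕ, t = (p.2.1 : ℕ) - 1 - M0 * (C * q) := ⟨_, rfl⟩
  refine ⟨univ.filter fun u => b = J * M0 + u.1 ∧ t = (finFunctionFinEquiv u.2 : Fin (q ^ C)),
    ?_, ?_⟩
  · rw [Finset.card_le_one]
    rintro ⟨i, τ⟩ h1 ⟨i', τ'⟩ h2
    rw [Finset.mem_filter] at h1 h2
    obtain ⟨-, h1, h1'⟩ := h1
    obtain ⟨-, h2, h2'⟩ := h2
    simp only at h1 h1' h2 h2'
    have e1 : i = i' := Fin.ext (by omega)
    have e2 : finFunctionFinEquiv τ = finFunctionFinEquiv τ' := Fin.ext (h1'.symm.trans h2')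
    rw [e1, finFunctionFinEquiv.injective e2]
  · intro x x' hx h1
    unfold enc at h1 ⊢
    rw [decide_eq_true_eq, mem_XI] at h1 ⊢
    rcases h1 with h1 | h1
    · exact Or.inl h1
    · refine Or.inr (endc_mono ?_ h1)
      rw [← hb, ← ht]
      rintro ⟨J', i, τ, e1, e2, e3⟩
      refine ⟨J', i, τ, e1, e2, ?_⟩
      by_cases hJ : J' = J
      · subst hJ
        rw [Function.update_self] at e3 ⊢
        exact hx _ (Finset.mem_filter.2 ⟨mem_univ _, e1, e2⟩) e3
      · rw [Function.update_of_ne hJ] at e3 ⊢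
        exact e3

end

/-- randomised circuits that decide satisfiability are large -/
theorem low {M0 b m q m' s w : ℕ} {h : Fin M0 → Fin (b + 2) → Fin m}
    (hG : Good h (Fin q) b s w) (hq32 : 32 ≤ q) (d : Fin M0 × Fin (b + 2))
    {R : Type} [Fintype R] [Nonempty R]
    (l : R → List (Finset (Ix (m' * (M0 * ((b + 2) * q))) (1 + M0 * ((b + 2) * q) + q ^ (b + 2))) → ℝ))
    (Q : R → List (List ((Finset (Ix (m' * (M0 * ((b + 2) * q)))
      (1 + M0 * ((b + 2) * q) + q ^ (b + 2))) → ℝ) × ℝ)))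
    (f : R → Finset (Ix (m' * (M0 * ((b + 2) * q))) (1 + M0 * ((b + 2) * q) + q ^ (b + 2))) → ℝ)
    (θ : ℝ)
    (hl : ∀ r, FProg (bits _) (l r) (Q r)) (hf : ∀ r, f r ∈ l r)
    (hyes : ∀ X, ¬ Satisfiable (HC h m' q d) X →
      3 * Fintype.card R ≤ 4 * (univ.filter fun r => θ ≤ f r X).card)
    (hno : ∀ X, Satisfiable (HC h m' q d) X →
      3 * Fintype.card R ≤ 4 * (univ.filter fun r => f r X < θ).card)
    (hfree : ∀ r, (combos (Q r) : ℝ) ≤ 1 / 4 * m')
    (hlen : ∀ r, (l r).length + wires (Q r) ≤ (q + 1) ^ m)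
    (hlt : ∀ r, 32 * (((l r).length + wires (Q r) : ℕ) : ℝ) * 2 ^ (w / (2 * b) / b + 1) <
      (q : ℝ) ^ (w / (2 * b) / b + 1)) : False := by
  have hq0 : 0 < q := by omega
  have hconv : ∀ r, ∃ C : RC (Ix (m' * (M0 * ((b + 2) * q))) (1 + M0 * ((b + 2) * q) + q ^ (b + 2))),
      C.size = (l r).length + wires (Q r) ∧
      C.free = combos (Q r) ∧ ∀ x, C.acc x ↔ θ ≤ f r (toSet x) :=
    fun r => rc_of_fprog (fun g hg => hg) (hl r) (f r) (hf r) θ
  choose C hCs hCf hCa using hconv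
  have hRpos : (0 : ℝ) < Fintype.card R := by exact_mod_cast Fintype.card_pos
  refine csp_rand_dual (h := h) (Λ := Fin q) hG C (enc h d) (enc_mono h d)
    (enc_narrow h d) (1 / 4) (1 / 2) ?_ ?_ ?_ ?_ ?_ ?_
  · intro y hy
    have h1 := hyes (XI h d y) (fun h1 => (host_iff h d hq0 y).1 h1 hy)
    have h2 : {r : R | (C r).acc (enc h d y)}.ncard =
        (univ.filter fun r => θ ≤ f r (XI h d y)).card := by
      rw [← Set.ncard_coe_finset]
      congr 1
      ext r
      simp only [Set.mem_ofPred_eq, Finset.coe_filter, Finset.mem_univ, true_and]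
      rw [hCa, toSet_enc]
    rw [h2]
    have h3 : (3 * Fintype.card R : ℝ) ≤ 4 *
        ((univ.filter fun r => θ ≤ f r (XI h d y)).card : ℝ) := by
      exact_mod_cast h1
    linarith
  · intro y hy
    have h1 := hno (XI h d y) ((host_iff h d hq0 y).2 hy)
    have h2 : {r : R | (C r).acc (enc h d y)}.ncard =
        (univ.filter fun r => θ ≤ f r (XI h d y)).card := by
      rw [← Set.ncard_coe_finset]
      congr 1
      ext r
      simp only [Set.mem_ofPred_eq, Finset.coe_filter, Finset.mem_univ, true_and]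
      rw [hCa, toSet_enc]
    have h4 := Finset.card_filter_add_card_filter_not (s := (univ : Finset R))
      (fun r => f r (XI h d y) < θ)
    simp only [not_lt, Finset.card_univ] at h4
    rw [h2]
    have h3 : (3 * Fintype.card R : ℝ) ≤ 4 *
        ((univ.filter fun r => f r (XI h d y) < θ).card : ℝ) := by
      exact_mod_cast h1
    have h5 : ((univ.filter fun r => f r (XI h d y) < θ).card : ℝ) +
        ((univ.filter fun r => θ ≤ f r (XI h d y)).card : ℝ) =
        Fintype.card R := by exact_mod_cast h4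
    linarith
  · intro r
    rw [hCf]
    have := hfree r
    linarith
  · intro r
    rw [hCs, Fintype.card_fin, Fintype.card_fin]
    exact hlen r
  · rw [Fintype.card_fin, div_le_iff₀ (by exact_mod_cast hq0)]
    have : (32 : ℝ) ≤ q := by exact_mod_cast hq32
    linarith
  · intro r
    rw [hCs, Fintype.card_fin]
    have := hlt r
    linarith

end Pool.Agent.Y612.Sat
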