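import Pool.Agent.Y612.Sat.Par
import Pool.Agent.Y612.Sat.Low

/-!
# Randomised circuits for planar 3-SAT: the lower bound
-/

set_option autoImplicit false

namespace Pool.Agent.Y612.Sat

open Finset Pool.Agent.W969.MC Pool.Agent.H560R2 H630VC Pool.Agent.Y612.Tsp
open scoped Classical

theorem card_host (R K : ℕ) (hR : 0 < R) (hK : 0 < K) :
    Fintype.card (Var R K) + Fintype.card (Ix R K) ≤ 30 * (R * K) := by
  unfold Var Ix
  simp only [Fintype.card_sum, Fintype.card_prod, Fintype.card_fin]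
  have h1 : R ≤ R * K := Nat.le_mul_of_pos_right R hK
  have h2 : K ≤ R * K := Nat.le_mul_of_pos_left K hR
  nlinarith

theorem main0 (γ : ℝ) (hγ : 0 ≤ γ) (hγ1 : γ < 1) (ε : ℝ) (hε : 0 < ε) :
    ∃ N₀ : ℕ, ∀ N : ℕ, N₀ ≤ N → ∃ (A K : ℕ) (sg : ℕ → ℕ → Option Bool) (rs : ℕ → ℕ → Bool),
      Fintype.card (Var A K) + Fintype.card (Ix A K) ≤ N ∧
      ∀ (R : Type) [Fintype R] [Nonempty R]
        (l : R → List (Finset (Ix A K) → ℝ))
        (q : R → List (List ((Finset (Ix A K) → ℝ) × ℝ)))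
        (f : R → Finset (Ix A K) → ℝ) (θ : ℝ),
        (∀ r, FProg (bits (Ix A K)) (l r) (q r)) → (∀ r, f r ∈ l r) →
        (∀ r, (combos (q r) : ℝ) ≤ (N : ℝ) ^ γ) →
        (∀ X : Finset (Ix A K), ¬ Satisfiable (cl sg rs) X →
          3 * Fintype.card R ≤ 4 * (univ.filter fun r => θ ≤ f r X).card) →
        (∀ X : Finset (Ix A K), Satisfiable (cl sg rs) X →
          3 * Fintype.card R ≤ 4 * (univ.filter fun r => f r X < θ).card) →
        ∃ r, Real.exp ((N : ℝ) ^ ((1 - γ) / 2 - ε)) ≤ (l r).length + wires (q r) := by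
  obtain ⟨ε', hε', hε'0, hε'1⟩ : ∃ ε' : ℝ, ε' ≤ ε ∧ 0 < ε' ∧ ε' ≤ (1 - γ) / 4 :=
    ⟨min ε ((1 - γ) / 4), min_le_left _ _, lt_min hε (by linarith), min_le_right _ _⟩
  obtain ⟨b, N0, H⟩ := sat_pars γ ε' hγ hγ1 hε'0 hε'1
  refine ⟨max N0 1, fun N hN => ?_⟩
  obtain ⟨q, M, m, s, w, m', h, hG, hq32, hm', hM, hcard, hNγ, hz⟩ :=
    H N ((le_max_left _ _).trans hN)
  have hN1 : 1 ≤ N := (le_max_right _ _).trans hN
  have hd : 0 < M ∧ 0 < b + 2 := ⟨hM, by omega⟩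
  set d : Fin M × Fin (b + 2) := (⟨0, hM⟩, ⟨0, by omega⟩) with hdd
  refine ⟨_, _, sgc (M * ((b + 2) * q)) (b + 2) q (rpf h q d) (dig (b + 2) q),
    rsc (M * ((b + 2) * q)) (b + 2) q,
    (card_host (m' * (M * ((b + 2) * q))) (1 + M * ((b + 2) * q) + q ^ (b + 2)) ?_ ?_).trans hcard,
    ?_⟩
  · exact Nat.mul_pos hm' (Nat.mul_pos hM (Nat.mul_pos (by omega) (by omega)))
  · omega
  · intro R _ _ l Q f θ hl hf hfree hyes hno
    by_contra hcon
    push Not at hcon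
    have hcon' : ∀ r, (((l r).length + wires (Q r) : ℕ) : ℝ) <
        Real.exp ((N : ℝ) ^ ((1 - γ) / 2 - ε')) := by
      intro r
      push_cast
      refine (hcon r).trans_le (Real.exp_le_exp.mpr ?_)
      exact Real.rpow_le_rpow_of_exponent_le (by exact_mod_cast hN1) (by linarith)
    exact low (h := h) hG hq32 d l Q f θ hl hf hyes hno
      (fun r => (hfree r).trans hNγ) (fun r => (hz _ (hcon' r)).1) (fun r => (hz _ (hcon' r)).2)

end Pool.Agent.Y612.Sat
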