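import Pool.Agent.Y612.Sat.Defs

/-!
# Columns of clauses
-/

set_option autoImplicit false

namespace Pool.Agent.Y612.Sat

open Finset
open scoped Classical

theorem lit_some (b x : Bool) : lit (some b) x = true ↔ x = b := by
  unfold lit
  cases b <;> cases x <;> decide

theorem lit_none (x : Bool) : lit none x = false := by
  cases x <;> decide

section

variable {sg : ℕ → ℕ → Option Bool} {rs : ℕ → ℕ → Bool}

theorem blk (x : ℕ → Bool) (j b len : ℕ) (hrs : ∀ t < len, rs (b * len + t) j = decide (t = 0)) :
    ∀ t < len, (run sg rs x j (b * len + t + 1) = true ↔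
      ∃ t' ≤ t, lit (sg (b * len + t') j) (x (b * len + t')) = true) := by
  intro t
  induction t with
  | zero =>
    intro ht
    have h0 := hrs 0 ht
    rw [Nat.add_zero] at h0
    rw [Nat.add_zero, run, h0]
    simp
  | succ t ih =>
    intro ht
    have h1 := ih (by omega)
    rw [run, hrs (t + 1) ht, Bool.or_eq_true, Bool.and_eq_true]
    rw [show b * len + (t + 1) = b * len + t + 1 by omega, h1]
    constructor
    · rintro (⟨⟨t', h2, h3⟩, -⟩ | h2)
      · exact ⟨t', by omega, h3⟩
      · exact ⟨t + 1, le_rfl, h2⟩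
    · rintro ⟨t', h2, h3⟩
      rcases Nat.lt_or_ge t t' with h4 | h4
      · have : t' = t + 1 := by omega
        subst this
        exact Or.inr h3
      · exact Or.inl ⟨⟨t', h4, h3⟩, by simp⟩

theorem blk_end (x : ℕ → Bool) (j b len : ℕ) (hl : 0 < len)
    (hrs : ∀ t < len, rs (b * len + t) j = decide (t = 0)) :
    run sg rs x j (b * len + (len - 1) + 1) = true ↔
      ∃ t < len, lit (sg (b * len + t) j) (x (b * len + t)) = true := by
  rw [blk x j b len hrs (len - 1) (by omega)]
  constructor
  · rintro ⟨t, h1, h2⟩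
    exact ⟨t, by omega, h2⟩
  · rintro ⟨t, h1, h2⟩
    exact ⟨t, by omega, h2⟩

end

section

variable (A C q : ℕ) (rp : ℕ → ℕ) (T : ℕ → ℕ → ℕ)

/-- the starts of the clauses -/
def rsc (i j : ℕ) : Bool :=
  if j = 0 then decide (i % q = 0) else if j ≤ A then decide (i % A = 0)
  else decide (i % (C * q) = 0)

/-- the literals -/
def sgc (i j : ℕ) : Option Bool :=
  if j = 0 then some true
  else if j ≤ A then
    (if i % A = j - 1 then some true else if i % A = rp (j - 1) then some false else none)
  else if i % q = T (j - 1 - A) ((i % (C * q)) / q) then some false else none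

/-- the ends of the clauses -/
def endc (Fb : ℕ → ℕ → Prop) (i j : ℕ) : Prop :=
  (j = 0 ∧ i % q = q - 1) ∨ (1 ≤ j ∧ j ≤ A ∧ i % A = A - 1 ∧ rp (j - 1) ≠ j - 1) ∨
    (A < j ∧ i % (C * q) = C * q - 1 ∧ Fb (i / (C * q)) (j - 1 - A))

theorem rsc_zero (j : ℕ) : rsc A C q 0 j = true := by
  unfold rsc
  simp

variable {A C q}

theorem add_mul_mod' {b len t : ℕ} (ht : t < len) : (b * len + t) % len = t := by
  rw [Nat.add_comm, Nat.add_mul_mod_self_right, Nat.mod_eq_of_lt ht]

theorem add_mul_div' {b len t : ℕ} (ht : t < len) : (b * len + t) / len = b := by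
  rw [Nat.add_comm, Nat.add_mul_div_right _ _ (by omega), Nat.div_eq_of_lt ht, Nat.zero_add]

theorem col0 (x : ℕ → Bool) (hq : 0 < q) (b : ℕ) :
    run (sgc A C q rp T) (rsc A C q) x 0 (b * q + (q - 1) + 1) = true ↔
      ∃ v < q, x (b * q + v) = true := by
  rw [blk_end x 0 b q hq]
  · constructor
    · rintro ⟨t, h1, h2⟩
      refine ⟨t, h1, ?_⟩
      unfold sgc at h2
      rw [if_pos rfl, lit_some] at h2
      exact h2
    · rintro ⟨t, h1, h2⟩
      refine ⟨t, h1, ?_⟩
      unfold sgc
      rw [if_pos rfl, lit_some]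
      exact h2
  · intro t ht
    unfold rsc
    rw [if_pos rfl, add_mul_mod' ht]

theorem colB (x : ℕ → Bool) (hA : 0 < A) (J o : ℕ) (ho : o < A) (hrp : rp o < A) (hne : rp o ≠ o) :
    run (sgc A C q rp T) (rsc A C q) x (o + 1) (J * A + (A - 1) + 1) = true ↔
      (x (J * A + o) = true ∨ x (J * A + rp o) = false) := by
  rw [blk_end x (o + 1) J A hA]
  · constructor
    · rintro ⟨t, h1, h2⟩
      unfold sgc at h2
      rw [if_neg (by omega), if_pos (by omega), add_mul_mod' h1, Nat.add_sub_cancel] at h2
      split_ifs at h2 with h3 h4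
      · rw [lit_some] at h2
        rw [← h3]
        exact Or.inl h2
      · rw [lit_some] at h2
        rw [← h4]
        exact Or.inr h2
      · rw [lit_none] at h2
        exact absurd h2 (by decide)
    · rintro (h2 | h2)
      · refine ⟨o, ho, ?_⟩
        unfold sgc
        rw [if_neg (by omega), if_pos (by omega), add_mul_mod' ho, Nat.add_sub_cancel, if_pos rfl,
          lit_some]
        exact h2
      · refine ⟨rp o, hrp, ?_⟩
        unfold sgc
        rw [if_neg (by omega), if_pos (by omega), add_mul_mod' hrp, Nat.add_sub_cancel, if_neg hne,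
          if_pos rfl, lit_some]
        exact h2
  · intro t ht
    unfold rsc
    rw [if_neg (by omega), if_pos (by omega), add_mul_mod' ht]

theorem colC (x : ℕ → Bool) (hq : 0 < q) (hC : 0 < C) (b t : ℕ) (hT : ∀ c < C, T t c < q) :
    run (sgc A C q rp T) (rsc A C q) x (t + 1 + A) (b * (C * q) + (C * q - 1) + 1) = true ↔
      ∃ c < C, x (b * (C * q) + (c * q + T t c)) = false := by
  rw [blk_end x (t + 1 + A) b (C * q) (Nat.mul_pos hC hq)]
  · have hmq : ∀ s, (b * (C * q) + s) % q = s % q := by
      intro s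
      rw [show b * (C * q) + s = s + q * (b * C) by ring, Nat.add_mul_mod_self_left]
    constructor
    · rintro ⟨s, h1, h2⟩
      unfold sgc at h2
      rw [if_neg (by omega), if_neg (by omega), add_mul_mod' h1, hmq,
        show t + 1 + A - 1 - A = t by omega] at h2
      split_ifs at h2 with h3
      · rw [lit_some] at h2
        have hc : s / q < C := (Nat.div_lt_iff_lt_mul hq).2 h1
        refine ⟨s / q, hc, ?_⟩
        rw [← h3]
        have : s / q * q + s % q = s := by
          rw [Nat.mul_comm]
          exact Nat.div_add_mod s q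
        rw [this]
        exact h2
      · rw [lit_none] at h2
        exact absurd h2 (by decide)
    · rintro ⟨c, h1, h2⟩
      have h3 := hT c h1
      have hs : c * q + T t c < C * q := by
        calc c * q + T t c < c * q + q := by omega
          _ = (c + 1) * q := by ring
          _ ≤ C * q := Nat.mul_le_mul_right _ h1
      refine ⟨c * q + T t c, hs, ?_⟩
      unfold sgc
      rw [if_neg (by omega), if_neg (by omega), add_mul_mod' hs, hmq,
        show t + 1 + A - 1 - A = t by omega, add_mul_mod' h3, add_mul_div' h3, if_pos rfl, lit_some]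
      exact h2
  · intro s hs
    unfold rsc
    rw [if_neg (by omega), if_neg (by omega), add_mul_mod' hs]

/-- the formula as a constraint satisfaction problem -/
theorem cols_iff {m' M0 : ℕ} (hA : A = M0 * (C * q)) (hM : 0 < M0) (hq : 0 < q) (hC : 0 < C)
    {D : ℕ} (hrp : ∀ o < A, rp o < A) (hT : ∀ t < D, ∀ c < C, T t c < q) (Fb : ℕ → ℕ → Prop) :
    Satisfiable (cl (R := m' * A) (K := 1 + A + D) (sgc A C q rp T) (rsc A C q))
      (XE (univ.filter fun c => endc A C q rp Fb c.1 c.2)) ↔
    ∃ x : ℕ → Bool, (∀ b < m' * M0 * C, ∃ v < q, x (b * q + v) = true) ∧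
      (∀ J < m', ∀ o < A, rp o ≠ o → (x (J * A + o) = true ∨ x (J * A + rp o) = false)) ∧
      ∀ b < m' * M0, ∀ t < D, Fb b t → ∃ c < C, x (b * (C * q) + (c * q + T t c)) = false := by
  rw [sat_iff _ _ _ (rsc_zero A C q)]
  have hCq : 0 < C * q := Nat.mul_pos hC hq
  have hA0 : 0 < A := by rw [hA]; exact Nat.mul_pos hM hCq
  refine exists_congr fun x => ?_
  constructor
  · intro h
    refine ⟨?_, ?_, ?_⟩
    · intro b hb
      rw [← col0 (A := A) (C := C) rp T x hq b]
      have hlt : b * q + (q - 1) < m' * A := by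
        calc b * q + (q - 1) < (b + 1) * q := by rw [Nat.add_mul]; omega
          _ ≤ m' * M0 * C * q := Nat.mul_le_mul_right _ hb
          _ = m' * A := by rw [hA]; ring
      have := h (⟨b * q + (q - 1), hlt⟩, ⟨0, by omega⟩) (by
        rw [Finset.mem_filter]
        refine ⟨mem_univ _, Or.inl ⟨rfl, ?_⟩⟩
        exact add_mul_mod' (by omega))
      exact this
    · intro J hJ o ho hne
      rw [← colB (C := C) (q := q) rp T x hA0 J o ho (hrp o ho) hne]
      have hlt : J * A + (A - 1) < m' * A := by
        calc J * A + (A - 1) < (J + 1) * A := by rw [Nat.add_mul]; omega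
          _ ≤ m' * A := Nat.mul_le_mul_right _ hJ
      have := h (⟨J * A + (A - 1), hlt⟩, ⟨o + 1, by omega⟩) (by
        rw [Finset.mem_filter]
        refine ⟨mem_univ _, Or.inr (Or.inl ⟨by simp, ho, ?_, ?_⟩)⟩
        · exact add_mul_mod' (by omega)
        · exact hne)
      exact this
    · intro b hb t ht hF
      rw [← colC (A := A) rp T x hq hC b t (hT t ht)]
      have hlt : b * (C * q) + (C * q - 1) < m' * A := by
        calc b * (C * q) + (C * q - 1) < (b + 1) * (C * q) := by rw [Nat.add_mul]; omega
          _ ≤ m' * M0 * (C * q) := Nat.mul_le_mul_right _ hb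
          _ = m' * A := by rw [hA]; ring
      have := h (⟨b * (C * q) + (C * q - 1), hlt⟩, ⟨t + 1 + A, by omega⟩) (by
        rw [Finset.mem_filter]
        refine ⟨mem_univ _, Or.inr (Or.inr ⟨?_, ?_, ?_⟩)⟩
        · show A < t + 1 + A
          omega
        · exact add_mul_mod' (by omega)
        · show Fb ((b * (C * q) + (C * q - 1)) / (C * q)) (t + 1 + A - 1 - A)
          rw [add_mul_div' (by omega), show t + 1 + A - 1 - A = t by omega]
          exact hF)
      exact this
  · rintro ⟨h0, hB, hF⟩
    rintro ⟨⟨i, hi⟩, ⟨j, hj⟩⟩ hc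
    show run (sgc A C q rp T) (rsc A C q) x j (i + 1) = true
    rcases (Finset.mem_filter.1 hc).2 with ⟨h1, h2⟩ | ⟨h1, h2, h3, h4⟩ | ⟨h1, h2, h3⟩
    · simp only at h1 h2
      subst h1
      have e : i = i / q * q + (q - 1) := by
        have := Nat.div_add_mod i q
        rw [h2, Nat.mul_comm] at this
        exact this.symm
      rw [e, col0 rp T x hq]
      apply h0
      rw [Nat.div_lt_iff_lt_mul hq]
      calc i < m' * A := hi
        _ = m' * M0 * C * q := by rw [hA]; ring
    · simp only at h1 h2 h3 h4
      have e : i = i / A * A + (A - 1) := by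
        have := Nat.div_add_mod i A
        rw [h3, Nat.mul_comm] at this
        exact this.symm
      obtain ⟨o, rfl⟩ : ∃ o, j = o + 1 := ⟨j - 1, by omega⟩
      rw [Nat.add_sub_cancel] at h4
      rw [e, colB rp T x hA0 _ o (by omega) (hrp o (by omega)) h4]
      apply hB _ _ o (by omega) h4
      rw [Nat.div_lt_iff_lt_mul hA0]
      exact hi
    · simp only at h1 h2 h3
      have e : i = i / (C * q) * (C * q) + (C * q - 1) := by
        have := Nat.div_add_mod i (C * q)
        rw [h2, Nat.mul_comm] at this
        exact this.symm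
      obtain ⟨t, rfl⟩ : ∃ t, j = t + 1 + A := ⟨j - 1 - A, by omega⟩
      rw [show t + 1 + A - 1 - A = t by omega] at h3
      have ht : t < D := by omega
      rw [e, colC rp T x hq hC _ t (hT t ht)]
      apply hF _ _ t ht h3
      rw [Nat.div_lt_iff_lt_mul hCq]
      calc i < m' * A := hi
        _ = m' * M0 * (C * q) := by rw [hA]; ring

end

end Pool.Agent.Y612.Sat
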