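import Pool.Agent.Y612.Sat.Cols
import Pool.Agent.W969.MC.Avg3

/-!
# The constraint satisfaction problem in the host formula
-/

set_option autoImplicit false

namespace Pool.Agent.Y612.Sat

open Finset Pool.Agent.W969.MC
open scoped Classical

/-- the row of a value of an occurrence of a variable in a copy -/
def rown (M0 C q J i c v : ℕ) : ℕ := J * (M0 * (C * q)) + (i * (C * q) + (c * q + v))

theorem rown_lt {M0 C q i c v : ℕ} (hi : i < M0) (hc : c < C) (hv : v < q) :
    i * (C * q) + (c * q + v) < M0 * (C * q) ∧ c * q + v < C * q := by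
  have h1 : c * q + v < C * q := by
    calc c * q + v < (c + 1) * q := by rw [Nat.add_mul]; omega
      _ ≤ C * q := Nat.mul_le_mul_right _ hc
  refine ⟨?_, h1⟩
  calc i * (C * q) + (c * q + v) < (i + 1) * (C * q) := by rw [Nat.add_mul]; omega
    _ ≤ M0 * (C * q) := Nat.mul_le_mul_right _ hi

theorem rown_inj {M0 C q J i c v J' i' c' v' : ℕ} (hi : i < M0) (hc : c < C) (hv : v < q)
    (hi' : i' < M0) (hc' : c' < C) (hv' : v' < q)
    (h : rown M0 C q J i c v = rown M0 C q J' i' c' v') : J = J' ∧ i = i' ∧ c = c' ∧ v = v' := by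
  obtain ⟨a1, a2⟩ := rown_lt hi hc hv
  obtain ⟨b1, b2⟩ := rown_lt hi' hc' hv'
  unfold rown at h
  have e1 : J = J' := by
    rw [← add_mul_div' (b := J) a1, h, add_mul_div' b1]
  have e2 : i * (C * q) + (c * q + v) = i' * (C * q) + (c' * q + v') := by
    rw [← add_mul_mod' (b := J) a1, h, add_mul_mod' b1]
  have e3 : i = i' := by
    rw [← add_mul_div' (b := i) a2, e2, add_mul_div' b2]
  have e4 : c * q + v = c' * q + v' := by
    rw [← add_mul_mod' (b := i) a2, e2, add_mul_mod' b2]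
  have e5 : c = c' := by
    rw [← add_mul_div' (b := c) hv, e4, add_mul_div' hv']
  have e6 : v = v' := by
    rw [← add_mul_mod' (b := c) hv, e4, add_mul_mod' hv']
  exact ⟨e1, e3, e5, e6⟩

theorem code_surj {M0 C q o : ℕ} (ho : o < M0 * (C * q)) : ∃ i < M0, ∃ c < C, ∃ v < q,
    o = i * (C * q) + (c * q + v) := by
  have hpos : 0 < M0 * (C * q) := by omega
  have hq : 0 < q := Nat.pos_of_mul_pos_left (Nat.pos_of_mul_pos_left hpos)
  have hCq : 0 < C * q := Nat.pos_of_mul_pos_left hpos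
  refine ⟨o / (C * q), (Nat.div_lt_iff_lt_mul hCq).2 ho, o % (C * q) / q,
    (Nat.div_lt_iff_lt_mul hq).2 (Nat.mod_lt _ hCq), o % (C * q) % q, Nat.mod_lt _ hq, ?_⟩
  have h1 := Nat.div_add_mod o (C * q)
  have h2 := Nat.div_add_mod (o % (C * q)) q
  rw [Nat.mul_comm] at h1 h2
  rw [h2, h1]

section

variable {M0 C m q m' : ℕ} (h : Fin M0 → Fin C → Fin m)

theorem mem_tu (p : Fin m → Fin q) (u : Fin M0 × (Fin C → Fin q)) :
    u ∈ tu h (gr p) ↔ ∀ c, p (h u.1 c) = u.2 c := by
  unfold tu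
  simp [mem_gr]

/-- an occurrence of the variable `v` -/
noncomputable def occ (d : Fin M0 × Fin C) (v : Fin m) : Fin M0 × Fin C :=
  if hv : ∃ o : Fin M0 × Fin C, h o.1 o.2 = v then Classical.choose hv else d

theorem occ_spec (d : Fin M0 × Fin C) (i : Fin M0) (c : Fin C) :
    h (occ h d (h i c)).1 (occ h d (h i c)).2 = h i c := by
  have hv : ∃ o : Fin M0 × Fin C, h o.1 o.2 = h i c := ⟨(i, c), rfl⟩
  unfold occ
  rw [dif_pos hv]
  exact Classical.choose_spec hv

/-- the row to which a row is compared -/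
noncomputable def rpf (q : ℕ) (d : Fin M0 × Fin C) (o : ℕ) : ℕ :=
  if h1 : o / (C * q) < M0 ∧ o % (C * q) / q < C then
    (occ h d (h ⟨_, h1.1⟩ ⟨_, h1.2⟩)).1 * (C * q) +
      ((occ h d (h ⟨_, h1.1⟩ ⟨_, h1.2⟩)).2 * q + o % (C * q) % q)
  else 0

theorem rpf_eq (d : Fin M0 × Fin C) (i : Fin M0) (c : Fin C) (v : ℕ) (hv : v < q) :
    rpf h q d (i * (C * q) + (c * q + v)) =
      (occ h d (h i c)).1 * (C * q) + ((occ h d (h i c)).2 * q + v) := by
  obtain ⟨-, a2⟩ := rown_lt i.2 c.2 hv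
  have e1 : (i * (C * q) + (c * q + v)) / (C * q) = i := add_mul_div' a2
  have e2 : (i * (C * q) + (c * q + v)) % (C * q) = c * q + v := add_mul_mod' a2
  have e3 : (c * q + v) / q = c := add_mul_div' hv
  have e4 : (c * q + v) % q = v := add_mul_mod' hv
  unfold rpf
  have hd : (i * (C * q) + (c * q + v)) / (C * q) < M0 ∧
      (i * (C * q) + (c * q + v)) % (C * q) / q < C := by
    rw [e2, e1, e3]
    exact ⟨i.2, c.2⟩
  rw [dif_pos hd]
  have f1 : (⟨(i * (C * q) + (c * q + v)) / (C * q), hd.1⟩ : Fin M0) = i := Fin.ext e1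
  have f2 : (⟨(i * (C * q) + (c * q + v)) % (C * q) / q, hd.2⟩ : Fin C) = c :=
    Fin.ext (by
      show (i * (C * q) + (c * q + v)) % (C * q) / q = c
      rw [e2, e3])
  rw [f1, f2, e2, e4]

/-- the digits of the number of a tuple -/
noncomputable def dig (C q t c : ℕ) : ℕ :=
  if h1 : t < q ^ C ∧ c < C then
    ((finFunctionFinEquiv (m := q) (n := C)).symm ⟨t, h1.1⟩ ⟨c, h1.2⟩ : ℕ) else 0

theorem dig_eq (τ : Fin C → Fin q) (c : Fin C) :
    dig C q (finFunctionFinEquiv τ : Fin (q ^ C)) c = τ c := by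
  unfold dig
  rw [dif_pos ⟨(finFunctionFinEquiv τ).2, c.2⟩]
  have : (⟨((finFunctionFinEquiv τ : Fin (q ^ C)) : ℕ), (finFunctionFinEquiv τ).2⟩ : Fin (q ^ C)) =
      finFunctionFinEquiv τ := Fin.ext rfl
  rw [this, Equiv.symm_apply_apply]

/-- the forbidden tuples -/
def fb (y : Fin m' → Set (Fin M0 × (Fin C → Fin q))) (b t : ℕ) : Prop :=
  ∃ (J : Fin m') (i : Fin M0) (τ : Fin C → Fin q), b = J * M0 + i ∧
    t = (finFunctionFinEquiv τ : Fin (q ^ C)) ∧ (i, τ) ∈ y J

theorem csp_iff (d : Fin M0 × Fin C) (hq : 0 < q) (y : Fin m' → Set (Fin M0 × (Fin C → Fin q))) :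
    (∃ x : ℕ → Bool, (∀ b < m' * M0 * C, ∃ v < q, x (b * q + v) = true) ∧
      (∀ J < m', ∀ o < M0 * (C * q), rpf h q d o ≠ o →
        (x (J * (M0 * (C * q)) + o) = true ∨ x (J * (M0 * (C * q)) + rpf h q d o) = false)) ∧
      ∀ b < m' * M0, ∀ t < q ^ C, fb y b t →
        ∃ c < C, x (b * (C * q) + (c * q + dig C q t c)) = false) ↔
    ¬ ∃ J, ∀ p : Fin m → Fin q, ∃ u ∈ tu h (gr p), u ∈ y J := by
  constructor
  · rintro ⟨x, h0, hB, hF⟩ ⟨J, hJ⟩
    have hval : ∀ v0 : Fin m, ∃ v : Fin q, x (rown M0 C q J (occ h d v0).1 (occ h d v0).2 v) =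
        true := by
      intro v0
      set i' := (occ h d v0).1
      set c' := (occ h d v0).2
      have hb : (J * M0 + i') * C + c' < m' * M0 * C := by
        calc (J * M0 + i') * C + c' < (J * M0 + i' + 1) * C := by
              rw [Nat.add_mul (J * M0 + i') 1 C]
              have := c'.2
              omega
          _ ≤ m' * M0 * C := by
              apply Nat.mul_le_mul_right
              calc (J : ℕ) * M0 + i' + 1 ≤ (J + 1) * M0 := by
                    rw [Nat.add_mul]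
                    have := i'.2
                    omega
                _ ≤ m' * M0 := Nat.mul_le_mul_right _ J.2
      obtain ⟨v, hv, hx⟩ := h0 _ hb
      refine ⟨⟨v, hv⟩, ?_⟩
      have e : rown M0 C q J i' c' v = ((J * M0 + i') * C + c') * q + v := by
        unfold rown
        ring
      show x (rown M0 C q J i' c' v) = true
      rw [e]
      exact hx
    choose p hp using hval
    obtain ⟨⟨i, τ⟩, hu, huy⟩ := hJ p
    rw [mem_tu] at hu
    have hb : (J : ℕ) * M0 + i < m' * M0 := by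
      calc (J : ℕ) * M0 + i < (J + 1) * M0 := by
            rw [Nat.add_mul]
            have := i.2
            omega
        _ ≤ m' * M0 := Nat.mul_le_mul_right _ J.2
    obtain ⟨c, hc, hx⟩ := hF _ hb _ (finFunctionFinEquiv τ).2 ⟨J, i, τ, rfl, rfl, huy⟩
    have hdig := dig_eq τ ⟨c, hc⟩
    simp only at hdig
    rw [hdig] at hx
    have hpv := hu ⟨c, hc⟩
    simp only at hpv
    have hocc := hp (h i ⟨c, hc⟩)
    rw [hpv] at hocc
    obtain ⟨hlt, -⟩ := rown_lt i.2 hc (τ ⟨c, hc⟩).2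
    have e1 : (J * M0 + i) * (C * q) + (c * q + (τ ⟨c, hc⟩ : ℕ)) =
        J * (M0 * (C * q)) + (i * (C * q) + (c * q + (τ ⟨c, hc⟩ : ℕ))) := by ring
    rw [e1] at hx
    have hr := rpf_eq h d i ⟨c, hc⟩ (τ ⟨c, hc⟩) (τ ⟨c, hc⟩).2
    simp only at hr
    have hocc' : x (J * (M0 * (C * q)) + rpf h q d (i * (C * q) + (c * q + (τ ⟨c, hc⟩ : ℕ)))) =
        true := by
      rw [hr]
      exact hocc
    by_cases hne : rpf h q d (i * (C * q) + (c * q + (τ ⟨c, hc⟩ : ℕ))) =
        i * (C * q) + (c * q + (τ ⟨c, hc⟩ : ℕ))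
    · rw [hne, hx] at hocc'
      exact absurd hocc' (by decide)
    · rcases hB J J.2 _ hlt hne with h1 | h1
      · rw [hx] at h1
        exact absurd h1 (by decide)
      · rw [hocc'] at h1
        exact absurd h1 (by decide)
  · intro hcon
    push Not at hcon
    choose p hp using hcon
    set x : ℕ → Bool := fun r => decide (∃ (J : Fin m') (i : Fin M0) (c : Fin C),
      r = rown M0 C q J i c (p J (h i c))) with hx
    have hxt : ∀ (J : Fin m') (i : Fin M0) (c : Fin C) (v : ℕ), v < q →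
        (x (rown M0 C q J i c v) = true ↔ (p J (h i c) : ℕ) = v) := by
      intro J i c v hv
      rw [hx]
      simp only [decide_eq_true_eq]
      constructor
      · rintro ⟨J', i', c', e⟩
        obtain ⟨e1, e2, e3, e4⟩ := rown_inj i.2 c.2 hv i'.2 c'.2 (p J' (h i' c')).2 e
        have f1 := Fin.ext e1
        have f2 := Fin.ext e2
        have f3 := Fin.ext e3
        subst f1 f2 f3
        exact e4.symm
      · intro e
        exact ⟨J, i, c, by rw [e]⟩
    have hxf : ∀ (J : Fin m') (i : Fin M0) (c : Fin C) (v : ℕ), v < q →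
        (x (rown M0 C q J i c v) = false ↔ (p J (h i c) : ℕ) ≠ v) := by
      intro J i c v hv
      rw [← Bool.not_eq_true, hxt J i c v hv]
    refine ⟨x, ?_, ?_, ?_⟩
    · intro b hb
      have hC : 0 < C := by
        rcases Nat.eq_zero_or_pos C with h1 | h1
        · subst h1
          simp at hb
        · exact h1
      have hM : 0 < M0 := by
        rcases Nat.eq_zero_or_pos M0 with h1 | h1
        · subst h1
          simp at hb
        · exact h1
      have hJ : b / C / M0 < m' := by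
        rw [Nat.div_lt_iff_lt_mul hM, Nat.div_lt_iff_lt_mul hC]
        exact hb
      set J : Fin m' := ⟨b / C / M0, hJ⟩
      set i : Fin M0 := ⟨b / C % M0, Nat.mod_lt _ hM⟩
      set c : Fin C := ⟨b % C, Nat.mod_lt _ hC⟩
      refine ⟨p J (h i c), (p J (h i c)).2, ?_⟩
      have e : b * q + (p J (h i c) : ℕ) = rown M0 C q J i c (p J (h i c)) := by
        have h1 := Nat.div_add_mod b C
        have h2 := Nat.div_add_mod (b / C) M0
        have h3 : b = (J * M0 + i) * C + c := by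
          show b = (b / C / M0 * M0 + b / C % M0) * C + b % C
          rw [Nat.mul_comm (b / C / M0), h2, Nat.mul_comm, h1]
        unfold rown
        conv_lhs => rw [h3]
        ring
      rw [e, hxt _ _ _ _ (p J (h i c)).2]
    · intro J hJ o ho hne
      obtain ⟨i, hi, c, hc, v, hv, rfl⟩ := code_surj ho
      have hr := rpf_eq h d ⟨i, hi⟩ ⟨c, hc⟩ v hv
      simp only at hr
      rw [hr]
      by_cases hpv : (p ⟨J, hJ⟩ (h ⟨i, hi⟩ ⟨c, hc⟩) : ℕ) = v
      · left
        exact (hxt ⟨J, hJ⟩ ⟨i, hi⟩ ⟨c, hc⟩ v hv).2 hpv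
      · right
        refine (hxf ⟨J, hJ⟩ (occ h d (h ⟨i, hi⟩ ⟨c, hc⟩)).1 (occ h d (h ⟨i, hi⟩ ⟨c, hc⟩)).2
          v hv).2 ?_
        rw [occ_spec h d ⟨i, hi⟩ ⟨c, hc⟩]
        exact hpv
    · rintro b - t - ⟨J, i, τ, rfl, rfl, hy⟩
      by_contra hcon
      push Not at hcon
      have hτ : ∀ c : Fin C, p J (h i c) = τ c := by
        intro c
        have h1 := hcon c c.2
        rw [dig_eq, Bool.ne_false_iff] at h1
        have e1 : (J * M0 + i) * (C * q) + (c * q + (τ c : ℕ)) = rown M0 C q J i c (τ c) := by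
          unfold rown
          ring
        rw [e1, hxt _ _ _ _ (τ c).2] at h1
        exact Fin.ext h1
      exact hp J (i, τ) ((mem_tu h _ _).2 hτ) hy

end

end Pool.Agent.Y612.Sat
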