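import Pool.Agent.Y612.Sat.Par0

/-!
# The parameters of the lower bound for planar 3-SAT
-/

set_option autoImplicit false

namespace Pool.Agent.Y612.Sat

open Finset Pool.Agent.W969.MC Pool.Agent.H560R2

theorem area_le {m0 M b q m' K : ℕ} (hm0 : 0 < m0) (hM : 0 < M) (hq : 0 < q)
    (h : (7 * (2 * (m0 * M * (b + 2) * q + q ^ (b + 2)) + 1) + 1) *
        (8 * (m0 * M * ((b + 2) * q + 1)) + 5) + m0 * M * q ^ (b + 2) ≤ K ^ 2) :
    56 * ((m' * (M * ((b + 2) * q))) * (1 + M * ((b + 2) * q) + q ^ (b + 2))) ≤ m' * K ^ 2 := by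
  set a := M * ((b + 2) * q) with ha
  set D := q ^ (b + 2) with hD
  have ha1 : 1 ≤ a := Nat.mul_pos hM (Nat.mul_pos (by omega) hq)
  have h1 : a ≤ m0 * M * (b + 2) * q := by
    calc a = 1 * M * (b + 2) * q := by rw [ha]; ring
      _ ≤ m0 * M * (b + 2) * q := by
        apply Nat.mul_le_mul_right
        apply Nat.mul_le_mul_right
        exact Nat.mul_le_mul_right _ hm0
  have h2 : a ≤ m0 * M * ((b + 2) * q + 1) := by
    calc a ≤ m0 * M * (b + 2) * q := h1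
      _ = m0 * M * ((b + 2) * q) := by ring
      _ ≤ m0 * M * ((b + 2) * q + 1) := Nat.mul_le_mul_left _ (Nat.le_succ _)
  have h3 : (14 * (a + D)) * (8 * a) ≤ K ^ 2 := by
    refine le_trans ?_ ((Nat.le_add_right _ _).trans h)
    apply Nat.mul_le_mul
    · omega
    · omega
  have h4 : 56 * (a * (1 + a + D)) ≤ K ^ 2 := by
    refine le_trans ?_ h3
    calc 56 * (a * (1 + a + D)) ≤ 56 * (a * (2 * (a + D))) := by
          apply Nat.mul_le_mul_left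
          apply Nat.mul_le_mul_left
          omega
      _ = (14 * (a + D)) * (8 * a) := by ring
  calc 56 * (m' * a * (1 + a + D)) = m' * (56 * (a * (1 + a + D))) := by ring
    _ ≤ m' * K ^ 2 := Nat.mul_le_mul_left _ h4

theorem sat_pars (γ ε : ℝ) (hγ : 0 ≤ γ) (_hγ1 : γ < 1) (hε : 0 < ε) (hε1 : ε ≤ (1 - γ) / 4) :
    ∃ b : ℕ, ∃ N0 : ℕ, ∀ N : ℕ, N0 ≤ N → ∃ (q M m s w m' : ℕ) (h : Fin M → Fin (b + 2) → Fin m),
      Good h (Fin q) b s w ∧ 32 ≤ q ∧ 0 < m' ∧ 0 < M ∧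
      30 * ((m' * (M * ((b + 2) * q))) * (1 + M * ((b + 2) * q) + q ^ (b + 2))) ≤ N ∧
      (N : ℝ) ^ γ ≤ 1 / 4 * m' ∧
      ∀ z : ℕ, (z : ℝ) < Real.exp ((N : ℝ) ^ ((1 - γ) / 2 - ε)) → z ≤ (q + 1) ^ m ∧
        32 * (z : ℝ) * 2 ^ (w / (2 * b) / b + 1) < (q : ℝ) ^ (w / (2 * b) / b + 1) := by
  obtain ⟨b, δ, hδ, K0, H⟩ := pars0 ε hε (by linarith)
  obtain ⟨n1, hn1⟩ := ev_rpow (η := ε / 2) (by positivity) 8
  obtain ⟨n2, hn2⟩ := ev_rpow (η := (1 - γ) / 2) (by linarith) (8 * K0 + 8)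
  refine ⟨b, max (max n1 n2) 1, fun N hN => ?_⟩
  have g1 := hn1 N ((le_max_left _ _).trans ((le_max_left _ _).trans hN))
  have g2 := hn2 N ((le_max_right _ _).trans ((le_max_left _ _).trans hN))
  have hN1 : 1 ≤ N := (le_max_right _ _).trans hN
  have hNR : (1 : ℝ) ≤ N := by exact_mod_cast hN1
  have hNpos : (0 : ℝ) < N := by linarith
  set X : ℝ := (N : ℝ) ^ ((1 - γ) / 2) with hX
  have hXpos : 0 < X := by positivity
  have hX8 : 8 ≤ X := by
    have : (0 : ℝ) ≤ K0 := Nat.cast_nonneg _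
    linarith
  obtain ⟨K, hK⟩ : ∃ K, K = ⌊X / 4⌋₊ := ⟨_, rfl⟩
  have hK1 : (K : ℝ) ≤ X / 4 := by
    rw [hK]
    exact Nat.floor_le (by positivity)
  have hK2 : X / 8 ≤ K := by
    have := Nat.sub_one_lt_floor (X / 4)
    rw [← hK] at this
    linarith
  have hK0 : K0 ≤ K := by
    have : (K0 : ℝ) ≤ K := by linarith
    exact_mod_cast this
  have hKpos : (0 : ℝ) < K := by linarith
  obtain ⟨q, M, m, s, w, m0, h, hG, hq32, hm0, hM, har, -, hz⟩ := H K hK0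
  obtain ⟨m', hm'⟩ : ∃ m', m' = ⌈4 * (N : ℝ) ^ γ⌉₊ := ⟨_, rfl⟩
  have hNγ : (1 : ℝ) ≤ (N : ℝ) ^ γ := Real.one_le_rpow hNR hγ
  have hm1 : 4 * (N : ℝ) ^ γ ≤ m' := by
    rw [hm']
    exact Nat.le_ceil _
  have hm2 : (m' : ℝ) ≤ 5 * (N : ℝ) ^ γ := by
    have := Nat.ceil_lt_add_one (show 0 ≤ 4 * (N : ℝ) ^ γ by positivity)
    rw [← hm'] at this
    linarith
  have hm'pos : 0 < m' := by
    have : (0 : ℝ) < m' := by linarith
    exact_mod_cast this
  refine ⟨q, M, m, s, w, m', h, hG, hq32, hm'pos, hM, ?_, by linarith, ?_⟩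
  · have h1 := area_le (m' := m') hm0 hM (by omega) har
    have h2 : ((m' * K ^ 2 : ℕ) : ℝ) ≤ N := by
      push_cast
      have h3 : (N : ℝ) ^ γ * X ^ 2 = N := by
        rw [hX, ← Real.rpow_natCast, ← Real.rpow_mul hNpos.le, ← Real.rpow_add hNpos]
        have : γ + (1 - γ) / 2 * ((2 : ℕ) : ℝ) = 1 := by
          push_cast
          ring
        rw [this, Real.rpow_one]
      have h4 : (K : ℝ) ^ 2 ≤ (X / 4) ^ 2 := pow_le_pow_left₀ hKpos.le hK1 2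
      calc (m' : ℝ) * (K : ℝ) ^ 2 ≤ (5 * (N : ℝ) ^ γ) * (X / 4) ^ 2 :=
            mul_le_mul hm2 h4 (by positivity) (by positivity)
        _ = 5 / 16 * ((N : ℝ) ^ γ * X ^ 2) := by ring
        _ ≤ N := by rw [h3]; linarith
    have h3 : m' * K ^ 2 ≤ N := by exact_mod_cast h2
    have h4 : 30 * ((m' * (M * ((b + 2) * q))) * (1 + M * ((b + 2) * q) + q ^ (b + 2))) ≤
        56 * ((m' * (M * ((b + 2) * q))) * (1 + M * ((b + 2) * q) + q ^ (b + 2))) :=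
      Nat.mul_le_mul_right _ (by norm_num)
    exact h4.trans (h1.trans h3)
  · intro z hzN
    apply hz z
    refine hzN.trans_le (Real.exp_le_exp.mpr ?_)
    have h1 : (X / 8) ^ (1 - ε) ≤ (K : ℝ) ^ (1 - ε) :=
      Real.rpow_le_rpow (by positivity) hK2 (by linarith)
    refine le_trans ?_ h1
    rw [Real.div_rpow hXpos.le (by norm_num), le_div_iff₀ (by positivity)]
    have h2 : (8 : ℝ) ^ (1 - ε) ≤ (N : ℝ) ^ (ε / 2) := by
      refine le_trans ?_ g1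
      calc (8 : ℝ) ^ (1 - ε) ≤ 8 ^ (1 : ℝ) :=
            Real.rpow_le_rpow_of_exponent_le (by norm_num) (by linarith)
        _ = 8 := Real.rpow_one 8
    calc (N : ℝ) ^ ((1 - γ) / 2 - ε) * 8 ^ (1 - ε) ≤
          (N : ℝ) ^ ((1 - γ) / 2 - ε) * (N : ℝ) ^ (ε / 2) :=
          mul_le_mul_of_nonneg_left h2 (by positivity)
      _ = (N : ℝ) ^ ((1 - γ) / 2 - ε / 2) := by
          rw [← Real.rpow_add hNpos]
          congr 1
          ring
      _ ≤ (N : ℝ) ^ ((1 - γ) / 2 * (1 - ε)) := by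
          apply Real.rpow_le_rpow_of_exponent_le hNR
          nlinarith
      _ = X ^ (1 - ε) := by
          rw [hX, ← Real.rpow_mul hNpos.le]

end Pool.Agent.Y612.Sat
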