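import Pool.Agent.W969.MC.Avg3
import Pool.Agent.W969.MC.Par

/-!
# The parameters of the lower bound (copy of `Pool/Agent/Y612/Tsp/Par.lean` with fewer imports)
-/

set_option autoImplicit false

namespace Pool.Agent.Y612.Sat

open Finset Pool.Agent.W969.MC Pool.Agent.H560R2

theorem pars0 (ε : ℝ) (hε : 0 < ε) (hε1 : ε ≤ 1 / 2) : ∃ b : ℕ, ∃ δ : ℝ, 0 < δ ∧
    ∃ K0 : ℕ, ∀ K : ℕ, K0 ≤ K → ∃ (q M m s w m' : ℕ) (h : Fin M → Fin (b + 2) → Fin m),
      Good h (Fin q) b s w ∧ 32 ≤ q ∧ 0 < m' ∧ 0 < M ∧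
      (7 * (2 * (m' * M * (b + 2) * q + q ^ (b + 2)) + 1) + 1) *
        (8 * (m' * M * ((b + 2) * q + 1)) + 5) + m' * M * q ^ (b + 2) ≤ K ^ 2 ∧
      (K : ℝ) ^ δ ≤ 1 / 4 * m' ∧
      ∀ z : ℕ, (z : ℝ) < Real.exp ((K : ℝ) ^ (1 - ε)) → z ≤ (q + 1) ^ m ∧
        32 * (z : ℝ) * 2 ^ (w / (2 * b) / b + 1) < (q : ℝ) ^ (w / (2 * b) / b + 1) := by
  obtain ⟨b, hb⟩ := exists_nat_ge (20 / ε + 8)
  have hb8R : (8 : ℝ) ≤ b := by
    have : 0 < 20 / ε := by positivity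
    linarith
  have hb8 : 8 ≤ b := by exact_mod_cast hb8R
  have hbε : 5 / ((b : ℝ) + 3) ≤ ε / 4 := by
    rw [div_le_iff₀ (by positivity)]
    have h1 : 20 / ε ≤ b := by linarith
    rw [div_le_iff₀ hε] at h1
    nlinarith
  obtain ⟨Kc, hKc⟩ : ∃ Kc, Kc = 18 * 3 ^ b * b ^ 2 := ⟨_, rfl⟩
  have hKcpos : 0 < Kc := by rw [hKc]; positivity
  have hKcR : (1 : ℝ) ≤ Kc := by exact_mod_cast hKcpos
  obtain ⟨k1, H1⟩ := ev_rpow (η := ε / 8) (by positivity) (2 ^ (b + 3) * 1024 * (2 / (ε / 16) + 1) ^ 2)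
  obtain ⟨k2, H2⟩ := ev_rpow (η := ε / 2) (by positivity) (64 * Kc * b ^ 2)
  obtain ⟨k3, H3⟩ := ev_rpow (η := 1 / 2) (by norm_num) (16 * Kc * (b * (b + 2) + 1) + 2)
  obtain ⟨k4, H4⟩ := ev_rpow (η := ε / 4) (by positivity) (4000 * (b + 2))
  refine ⟨b, 1 / (2 * ((b : ℝ) + 3)), by positivity,
    max (max k1 k2) (max (max k3 k4) (2 ^ (10 * b + 40))), ?_⟩
  intro K hK
  have g1 := H1 K ((le_max_left _ _).trans ((le_max_left _ _).trans hK))
  have g2 := H2 K ((le_max_right _ _).trans ((le_max_left _ _).trans hK))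
  have g3 := H3 K ((le_max_left _ _).trans ((le_max_left _ _).trans ((le_max_right _ _).trans hK)))
  have g5 := H4 K ((le_max_right _ _).trans ((le_max_left _ _).trans ((le_max_right _ _).trans hK)))
  have g4 : 2 ^ (10 * b + 40) ≤ K := (le_max_right _ _).trans ((le_max_right _ _).trans hK)
  have hK1 : 1 ≤ K := le_trans (Nat.one_le_two_pow) g4
  have hKR : (1 : ℝ) ≤ K := by exact_mod_cast hK1
  have hKpos : (0 : ℝ) < K := by linarith
  -- the parameters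
  set L := Nat.log 2 K with hL
  have hL1 : 10 * b + 40 ≤ L := by
    rw [hL]
    exact (Nat.le_log_iff_pow_le (by norm_num) (by omega)).mpr g4
  have hL2 : 2 ^ L ≤ K := Nat.pow_log_le_self 2 (by omega)
  have hL3 : K < 2 ^ (L + 1) := Nat.lt_pow_succ_log_self (by norm_num) K
  set t := L / (b + 3) with ht
  have ht1 : (b + 3) * t ≤ L := Nat.mul_div_le L (b + 3)
  have ht2 : L < (b + 3) * (t + 1) := Nat.lt_mul_div_succ L (by omega)
  have ht6 : 10 ≤ t := by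
    rw [ht]
    rw [Nat.le_div_iff_mul_le (by omega)]
    omega
  obtain ⟨u, hu⟩ : ∃ u, u + 4 = t := ⟨t - 4, by omega⟩
  set l : ℕ := ⌊(K : ℝ) ^ (1 - ε / 2)⌋₊ with hl
  have l1 : (l : ℝ) ≤ (K : ℝ) ^ (1 - ε / 2) := Nat.floor_le (by positivity)
  have l2 : (K : ℝ) ^ (1 - ε / 2) - 1 < l := Nat.sub_one_lt_floor _
  have l3 : (K : ℝ) ^ ((1 : ℝ) / 2) ≤ (K : ℝ) ^ (1 - ε / 2) :=
    Real.rpow_le_rpow_of_exponent_le hKR (by linarith)
  have l4 : 4 * 2 * Kc * (b * (b + 2) + 1) ≤ l := by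
    have h1 : ((4 * 2 * Kc * (b * (b + 2) + 1) : ℕ) : ℝ) ≤ l := by
      push_cast
      have h2 : (0 : ℝ) ≤ Kc * (b * (b + 2) + 1) := by positivity
      linarith
    exact_mod_cast h1
  obtain ⟨M, m, s, w, j0, f1, f2, f3, f4, f5, f6, f7, f8, f9, f10, f11, hj0⟩ :=
    floors' le_rfl (by omega : 2 ≤ b) hKcpos l4
  have hlpos : 0 < l := by
    have : 0 < 4 * 2 * Kc * (b * (b + 2) + 1) := by positivity
    omega
  have hKε : (1 : ℝ) ≤ (K : ℝ) ^ (ε / 8) := Real.one_le_rpow hKR (by positivity)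
  -- logarithms
  have hlogK : ((L : ℝ) + 1) ≤ (2 / (ε / 16) + 1) * (K : ℝ) ^ (ε / 16) :=
    natlog_le (by positivity) hK1
  have hlog2 : ((L : ℝ) + 1) ^ 2 ≤ (2 / (ε / 16) + 1) ^ 2 * (K : ℝ) ^ (ε / 8) := by
    calc ((L : ℝ) + 1) ^ 2 ≤ ((2 / (ε / 16) + 1) * (K : ℝ) ^ (ε / 16)) ^ 2 :=
          pow_le_pow_left₀ (by positivity) hlogK 2
      _ = (2 / (ε / 16) + 1) ^ 2 * (K : ℝ) ^ (ε / 8) := by
          rw [mul_pow, ← Real.rpow_natCast ((K : ℝ) ^ (ε / 16)) 2, ← Real.rpow_mul hKpos.le]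
          congr 2
          push_cast
          ring
  have hbig : (2 : ℝ) ^ (b + 3) * 1024 * ((L : ℝ) + 1) ^ 2 ≤ (K : ℝ) ^ (ε / 4) := by
    have h1 : (K : ℝ) ^ (ε / 4) = (K : ℝ) ^ (ε / 8) * (K : ℝ) ^ (ε / 8) := by
      rw [← Real.rpow_add hKpos]
      congr 1
      ring
    rw [h1]
    calc (2 : ℝ) ^ (b + 3) * 1024 * ((L : ℝ) + 1) ^ 2 ≤
          2 ^ (b + 3) * 1024 * ((2 / (ε / 16) + 1) ^ 2 * (K : ℝ) ^ (ε / 8)) :=
          mul_le_mul_of_nonneg_left hlog2 (by positivity)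
      _ = (2 ^ (b + 3) * 1024 * (2 / (ε / 16) + 1) ^ 2) * (K : ℝ) ^ (ε / 8) := by ring
      _ ≤ (K : ℝ) ^ (ε / 8) * (K : ℝ) ^ (ε / 8) :=
          mul_le_mul_of_nonneg_right g1 (by positivity)
  have hpow2 : (1 : ℝ) ≤ 2 ^ (b + 3) := one_le_pow₀ (by norm_num)
  have hLpos : (0 : ℝ) ≤ (L : ℝ) := Nat.cast_nonneg _
  -- rows and columns
  have hlL : (l : ℝ) * ((L : ℝ) + 1) ≤ (K : ℝ) / 1024 := by
    have h1 : (1024 : ℝ) * ((L : ℝ) + 1) ≤ (K : ℝ) ^ (ε / 4) := by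
      refine le_trans ?_ hbig
      have h2 : (L : ℝ) + 1 ≤ ((L : ℝ) + 1) ^ 2 := by nlinarith
      have h3 : (0 : ℝ) ≤ ((L : ℝ) + 1) ^ 2 := by positivity
      nlinarith
    have h2 : (K : ℝ) ^ (1 - ε / 2) * (K : ℝ) ^ (ε / 4) ≤ K := by
      rw [← Real.rpow_add hKpos]
      calc (K : ℝ) ^ (1 - ε / 2 + ε / 4) ≤ (K : ℝ) ^ (1 : ℝ) :=
            Real.rpow_le_rpow_of_exponent_le hKR (by linarith)
        _ = K := Real.rpow_one _
    have h3 : (l : ℝ) * (1024 * ((L : ℝ) + 1)) ≤ K := by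
      refine le_trans ?_ h2
      exact mul_le_mul l1 h1 (by positivity) (by positivity)
    linarith
  have hDL : (b + 2) * t + u + 2 ≤ L := by
    have : (b + 2) * t + t = (b + 3) * t := by ring
    omega
  have hKL : 1024 * (l * (L + 1)) ≤ K := by
    have h1 : ((1024 * (l * (L + 1)) : ℕ) : ℝ) ≤ K := by
      push_cast
      linarith
    exact_mod_cast h1
  -- the alphabet
  have hq1 : (2 ^ t) ^ (b + 3) ≤ K := by
    rw [← pow_mul, Nat.mul_comm]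
    exact (Nat.pow_le_pow_right (by norm_num) ht1).trans hL2
  have hq2 : K ≤ 2 ^ (b + 3) * (2 ^ t) ^ (b + 3) := by
    rw [← pow_mul, ← pow_add]
    refine hL3.le.trans (Nat.pow_le_pow_right (by norm_num) ?_)
    have : (b + 3) * (t + 1) = b + 3 + t * (b + 3) := by ring
    omega
  set q : ℝ := (2 : ℝ) ^ t with hq
  have hqpos : 0 < q := by rw [hq]; positivity
  have hq5 : q ^ 5 ≤ (K : ℝ) ^ (ε / 4) := by
    have h1 : q ^ (b + 3) ≤ K := by
      rw [hq]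
      exact_mod_cast hq1
    have h2 : q ≤ (K : ℝ) ^ (1 / ((b : ℝ) + 3)) := by
      have h3 : (q ^ (b + 3)) ^ (1 / ((b : ℝ) + 3)) ≤ (K : ℝ) ^ (1 / ((b : ℝ) + 3)) :=
        Real.rpow_le_rpow (by positivity) h1 (by positivity)
      rw [← Real.rpow_natCast, ← Real.rpow_mul hqpos.le] at h3
      push_cast at h3
      rw [mul_one_div_cancel (by positivity), Real.rpow_one] at h3
      exact h3
    calc q ^ 5 ≤ ((K : ℝ) ^ (1 / ((b : ℝ) + 3))) ^ 5 := pow_le_pow_left₀ hqpos.le h2 5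
      _ = (K : ℝ) ^ (5 / ((b : ℝ) + 3)) := by
          rw [← Real.rpow_natCast, ← Real.rpow_mul hKpos.le]
          congr 1
          push_cast
          ring
      _ ≤ (K : ℝ) ^ (ε / 4) := Real.rpow_le_rpow_of_exponent_le hKR hbε
  have hqb : (K : ℝ) ^ (1 - ε / 4) / 2 ^ (b + 3) ≤ q ^ (b - 2) := by
    have h1 : (K : ℝ) ≤ 2 ^ (b + 3) * q ^ (b + 3) := by
      rw [hq]
      exact_mod_cast hq2
    have h2 : q ^ (b + 3) = q ^ (b - 2) * q ^ 5 := by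
      rw [← pow_add]
      congr 1
      omega
    have h3 : (K : ℝ) = (K : ℝ) ^ (1 - ε / 4) * (K : ℝ) ^ (ε / 4) := by
      rw [← Real.rpow_add hKpos]
      have : 1 - ε / 4 + ε / 4 = 1 := by ring
      rw [this, Real.rpow_one]
    have h4 : 0 < (K : ℝ) ^ (ε / 4) := by positivity
    have h5 : (K : ℝ) ^ (1 - ε / 4) * (K : ℝ) ^ (ε / 4) ≤
        (2 ^ (b + 3) * q ^ (b - 2)) * (K : ℝ) ^ (ε / 4) := by
      calc (K : ℝ) ^ (1 - ε / 4) * (K : ℝ) ^ (ε / 4) = K := h3.symm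
        _ ≤ 2 ^ (b + 3) * (q ^ (b - 2) * q ^ 5) := by rw [← h2]; exact h1
        _ = (2 ^ (b + 3) * q ^ (b - 2)) * q ^ 5 := by ring
        _ ≤ (2 ^ (b + 3) * q ^ (b - 2)) * (K : ℝ) ^ (ε / 4) :=
            mul_le_mul_of_nonneg_left hq5 (by positivity)
    have h6 := le_of_mul_le_mul_right h5 h4
    rw [div_le_iff₀ (by positivity)]
    linarith
  have hstar' : 1024 * (m * ((t + 1) * (Nat.log 2 w + 1))) ≤ (2 ^ t) ^ (b - 2) := by
    have h1 : ((1024 * (m * ((t + 1) * (Nat.log 2 w + 1))) : ℕ) : ℝ) ≤ q ^ (b - 2) := by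
      push_cast
      refine le_trans ?_ hqb
      rw [le_div_iff₀ (by positivity)]
      have h2 : (m : ℝ) ≤ (K : ℝ) ^ (1 - ε / 2) := by
        have : (m : ℝ) ≤ l := by exact_mod_cast f11
        linarith
      have hlK : l ≤ K := by
        have : 1024 * (l * (L + 1)) = 1024 * (L + 1) * l := by ring
        nlinarith
      have h3 : (Nat.log 2 w : ℝ) ≤ L := by
        exact_mod_cast Nat.log_mono_right (f10.trans hlK)
      have h4 : (t : ℝ) ≤ L := by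
        have : t ≤ L := by
          calc t ≤ (b + 3) * t := Nat.le_mul_of_pos_left _ (by omega)
            _ ≤ L := ht1
        exact_mod_cast this
      have h5 : ((t : ℝ) + 1) * ((Nat.log 2 w : ℝ) + 1) ≤ ((L : ℝ) + 1) ^ 2 := by
        rw [sq]
        exact mul_le_mul (by linarith) (by linarith) (by positivity) (by positivity)
      have h6 : (K : ℝ) ^ (1 - ε / 4) = (K : ℝ) ^ (1 - ε / 2) * (K : ℝ) ^ (ε / 4) := by
        rw [← Real.rpow_add hKpos]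
        congr 1
        ring
      rw [h6]
      calc 1024 * ((m : ℝ) * (((t : ℝ) + 1) * ((Nat.log 2 w : ℝ) + 1))) * 2 ^ (b + 3) =
            m * ((2 : ℝ) ^ (b + 3) * 1024 * (((t : ℝ) + 1) * ((Nat.log 2 w : ℝ) + 1))) := by ring
        _ ≤ (K : ℝ) ^ (1 - ε / 2) * ((2 : ℝ) ^ (b + 3) * 1024 * ((L : ℝ) + 1) ^ 2) := by
            apply mul_le_mul h2 _ (by positivity) (by positivity)
            exact mul_le_mul_of_nonneg_left h5 (by positivity)
        _ ≤ (K : ℝ) ^ (1 - ε / 2) * (K : ℝ) ^ (ε / 4) :=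
            mul_le_mul_of_nonneg_left hbig (by positivity)
    rw [hq] at h1
    exact_mod_cast h1
  obtain ⟨h, hh⟩ := exists_expd (A := Fin (b + 2)) b s m M (by omega) (Fintype.card_fin _)
    (by rw [← hKc]; exact f5) f3 f1
  have hGood : Good h (Fin (2 ^ t)) b s w := by
    refine ⟨by omega, Fintype.card_fin _, hh, f7, f6, ?_, ?_, ?_, ?_⟩
    · rw [Fintype.card_fin]; exact f1
    · rw [Fintype.card_fin, Fintype.card_fin]; exact f2
    · rw [Fintype.card_fin]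
      calc 16 = 2 ^ 4 := by norm_num
        _ ≤ 2 ^ t := Nat.pow_le_pow_right (by norm_num) (by omega)
    · rw [Fintype.card_fin, Fintype.card_fin]
      have h1 : Nat.clog 2 (2 ^ t + 1) ≤ t + 1 := by
        apply Nat.clog_le_of_le_pow
        have : 1 ≤ 2 ^ t := Nat.one_le_two_pow
        rw [pow_succ]
        omega
      have h2 : 2 * (m * Nat.clog 2 (2 ^ t + 1)) + 2 ≤ 4 * (m * (t + 1)) := by
        have h3 : m * Nat.clog 2 (2 ^ t + 1) ≤ m * (t + 1) := Nat.mul_le_mul_left _ h1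
        have h4 : 1 ≤ m * (t + 1) := Nat.mul_pos f1 (by omega)
        omega
      have hb1 : b - 1 = b - 2 + 1 := by omega
      rw [hb1, pow_succ]
      calc 256 * (2 ^ t * ((2 * (m * Nat.clog 2 (2 ^ t + 1)) + 2) * (Nat.log 2 w + 1))) ≤
            256 * (2 ^ t * ((4 * (m * (t + 1))) * (Nat.log 2 w + 1))) :=
            Nat.mul_le_mul_left _ (Nat.mul_le_mul_left _ (Nat.mul_le_mul_right _ h2))
        _ = (1024 * (m * ((t + 1) * (Nat.log 2 w + 1)))) * 2 ^ t := by ring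
        _ ≤ (2 ^ t) ^ (b - 2) * 2 ^ t := Nat.mul_le_mul_right _ hstar'
  -- the conclusion
  have hx1 : 32 * Kc * b ^ 2 * (K : ℝ) ^ (1 - ε) ≤ l := by
    have h1 : (K : ℝ) ^ (1 - ε / 2) = (K : ℝ) ^ (ε / 2) * (K : ℝ) ^ (1 - ε) := by
      rw [← Real.rpow_add hKpos]
      congr 1
      ring
    have h2 : 64 * Kc * b ^ 2 * (K : ℝ) ^ (1 - ε) ≤ (K : ℝ) ^ (1 - ε / 2) := by
      rw [h1]
      exact mul_le_mul_of_nonneg_right g2 (by positivity)
    have h3 : (2 : ℝ) ≤ (K : ℝ) ^ (1 - ε / 2) := by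
      have : (0 : ℝ) ≤ 16 * Kc * (b * (b + 2) + 1) := by positivity
      linarith
    linarith
  have hx2 : (K : ℝ) ^ (1 - ε) ≤ j0 := by
    have h1 : (l : ℝ) ≤ 8 * 2 * Kc * b ^ 2 * j0 := by exact_mod_cast f9
    have h2 : (16 * (Kc : ℝ) * (b : ℝ) ^ 2) * (2 * (K : ℝ) ^ (1 - ε)) ≤
        (16 * (Kc : ℝ) * (b : ℝ) ^ 2) * (j0 : ℝ) := by
      calc (16 * (Kc : ℝ) * (b : ℝ) ^ 2) * (2 * (K : ℝ) ^ (1 - ε)) =
            32 * (Kc : ℝ) * (b : ℝ) ^ 2 * (K : ℝ) ^ (1 - ε) := by ring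
        _ ≤ (l : ℝ) := hx1
        _ ≤ 8 * 2 * (Kc : ℝ) * (b : ℝ) ^ 2 * (j0 : ℝ) := h1
        _ = (16 * (Kc : ℝ) * (b : ℝ) ^ 2) * (j0 : ℝ) := by ring
    have h3 := le_of_mul_le_mul_left h2 (by positivity)
    have h4 : (0 : ℝ) ≤ (K : ℝ) ^ (1 - ε) := by positivity
    linarith
  have hx3 : (K : ℝ) ^ (1 - ε) ≤ m := by
    have h1 : (l : ℝ) ≤ 4 * 2 * m := by exact_mod_cast f8
    have h2 : (8 : ℝ) * (K : ℝ) ^ (1 - ε) ≤ 32 * Kc * b ^ 2 * (K : ℝ) ^ (1 - ε) := by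
      apply mul_le_mul_of_nonneg_right _ (by positivity)
      have h3 : (1 : ℝ) ≤ (b : ℝ) ^ 2 := one_le_pow₀ (by linarith)
      nlinarith
    linarith
  have he1 : Real.exp 1 ≤ 3 := by
    have := Real.exp_one_lt_d9
    linarith
  have hexp : ∀ n : ℕ, (K : ℝ) ^ (1 - ε) ≤ n → Real.exp ((K : ℝ) ^ (1 - ε)) ≤ 3 ^ n := by
    intro n hn
    calc Real.exp ((K : ℝ) ^ (1 - ε)) ≤ Real.exp n := Real.exp_le_exp.mpr hn
      _ = Real.exp 1 ^ n := by rw [← Real.exp_nat_mul, mul_one]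
      _ ≤ 3 ^ n := pow_le_pow_left₀ (Real.exp_pos 1).le he1 n
  have h64 : 1024 ≤ 2 ^ t := by
    calc 1024 = 2 ^ 10 := by norm_num
      _ ≤ 2 ^ t := Nat.pow_le_pow_right (by norm_num) ht6
  have hj1 : 1 ≤ j0 := by
    rw [hj0]
    exact Nat.le_add_left 1 _
  have hmain : ∀ z : ℕ, (z : ℝ) < Real.exp ((K : ℝ) ^ (1 - ε)) → z ≤ (2 ^ t + 1) ^ m ∧
      32 * z * 2 ^ j0 < (2 ^ t) ^ j0 := by
    intro z hz
    constructor
    · have h1 : (z : ℝ) ≤ ((3 ^ m : ℕ) : ℝ) := by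
        push_cast
        exact hz.le.trans (hexp m hx3)
      have h2 : z ≤ 3 ^ m := by exact_mod_cast h1
      exact h2.trans (Nat.pow_le_pow_left (by omega) m)
    · have h1 : (z : ℝ) < ((3 ^ j0 : ℕ) : ℝ) := by
        push_cast
        exact lt_of_lt_of_le hz (hexp j0 hx2)
      have h2 : z < 3 ^ j0 := by exact_mod_cast h1
      calc 32 * z * 2 ^ j0 < 32 * 3 ^ j0 * 2 ^ j0 := by
            apply Nat.mul_lt_mul_of_pos_right _ (by positivity)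
            exact Nat.mul_lt_mul_of_pos_left h2 (by norm_num)
        _ ≤ 32 ^ j0 * 3 ^ j0 * 2 ^ j0 := by
            apply Nat.mul_le_mul_right
            apply Nat.mul_le_mul_right
            calc 32 = 32 ^ 1 := by norm_num
              _ ≤ 32 ^ j0 := Nat.pow_le_pow_right (by norm_num) hj1
        _ = 192 ^ j0 := by
            rw [← mul_pow, ← mul_pow]
            norm_num
        _ ≤ (2 ^ t) ^ j0 := Nat.pow_le_pow_left ((by norm_num : 192 ≤ 1024).trans h64) j0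
  have hK3 : (K : ℝ) ^ (1 / (2 * ((b : ℝ) + 3))) ≤ 2 ^ (u + 2) := by
    have h1 : K ≤ 2 ^ ((u + 2) * (2 * (b + 3))) := by
      refine hL3.le.trans (Nat.pow_le_pow_right (by norm_num) ?_)
      have h2 : (b + 3) * (t + 1) = (b + 3) * u + 5 * (b + 3) := by rw [← hu]; ring
      have h3 : (u + 2) * (2 * (b + 3)) = 2 * ((b + 3) * u) + 4 * (b + 3) := by ring
      have h4 : (b + 3) * 1 ≤ (b + 3) * u := Nat.mul_le_mul_left _ (by omega)
      omega
    have h2 : (K : ℝ) ≤ (2 ^ (u + 2)) ^ (2 * ((b : ℝ) + 3)) := by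
      have h3 : (K : ℝ) ≤ ((2 : ℝ) ^ (u + 2)) ^ (2 * (b + 3)) := by
        rw [← pow_mul]
        exact_mod_cast h1
      rw [← Real.rpow_natCast] at h3
      push_cast at h3
      exact h3
    calc (K : ℝ) ^ (1 / (2 * ((b : ℝ) + 3))) ≤
          (((2 : ℝ) ^ (u + 2)) ^ (2 * ((b : ℝ) + 3))) ^ (1 / (2 * ((b : ℝ) + 3))) :=
          Real.rpow_le_rpow hKpos.le h2 (by positivity)
      _ = 2 ^ (u + 2) := by
          rw [← Real.rpow_mul (by positivity), mul_one_div_cancel (by positivity), Real.rpow_one]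
  -- the number of cities
  have hcit1 : 4000 * (2 ^ t * M * (b + 2) * 2 ^ t) ≤ K := by
    have h1 : ((4000 * (2 ^ t * M * (b + 2) * 2 ^ t) : ℕ) : ℝ) ≤ K := by
      push_cast
      rw [← hq]
      have h2 : (M : ℝ) ≤ (K : ℝ) ^ (1 - ε / 2) := by
        have : (M : ℝ) ≤ l := by exact_mod_cast (by omega : M ≤ l)
        linarith
      have h3 : q * q ≤ (K : ℝ) ^ (ε / 4) := by
        refine le_trans ?_ hq5
        have hq1' : (1 : ℝ) ≤ q := by
          rw [hq]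
          exact one_le_pow₀ (by norm_num)
        calc q * q = q ^ 2 := by ring
          _ ≤ q ^ 5 := pow_le_pow_right₀ hq1' (by norm_num)
      have h4 : (K : ℝ) ^ (1 - ε / 2) * (K : ℝ) ^ (ε / 4) * (K : ℝ) ^ (ε / 4) = K := by
        rw [← Real.rpow_add hKpos, ← Real.rpow_add hKpos]
        have : 1 - ε / 2 + ε / 4 + ε / 4 = 1 := by ring
        rw [this, Real.rpow_one]
      calc 4000 * (q * (M : ℝ) * ((b : ℝ) + 2) * q) = M * (q * q) * (4000 * (b + 2)) := by ring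
        _ ≤ (K : ℝ) ^ (1 - ε / 2) * (K : ℝ) ^ (ε / 4) * (K : ℝ) ^ (ε / 4) := by
            apply mul_le_mul _ g5 (by positivity) (by positivity)
            exact mul_le_mul h2 h3 (by positivity) (by positivity)
        _ = K := h4
    exact_mod_cast h1
  have hcit2 : 1024 * (2 ^ t) ^ (b + 2) ≤ K := by
    calc 1024 * (2 ^ t) ^ (b + 2) ≤ 2 ^ t * (2 ^ t) ^ (b + 2) := Nat.mul_le_mul_right _ h64
      _ = (2 ^ t) ^ (b + 3) := by ring
      _ ≤ K := hq1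
  have hK1000 : 1000 ≤ K := by
    refine le_trans ?_ g4
    calc 1000 ≤ 2 ^ 10 := by norm_num
      _ ≤ 2 ^ (10 * b + 40) := Nat.pow_le_pow_right (by norm_num) (by omega)
  have hcit3 : 2 ^ t * M ≤ 2 ^ t * M * (b + 2) * 2 ^ t := by
    calc 2 ^ t * M = 2 ^ t * M * 1 * 1 := by ring
      _ ≤ 2 ^ t * M * (b + 2) * 2 ^ t :=
        Nat.mul_le_mul (Nat.mul_le_mul_left _ (by omega)) Nat.one_le_two_pow
  have hfin : (7 * (2 * (2 ^ t * M * (b + 2) * 2 ^ t + (2 ^ t) ^ (b + 2)) + 1) + 1) *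
        (8 * (2 ^ t * M * ((b + 2) * 2 ^ t + 1)) + 5) + 2 ^ t * M * (2 ^ t) ^ (b + 2) ≤ K ^ 2 := by
    have e1 : 2 ^ t * M * ((b + 2) * 2 ^ t + 1) = 2 ^ t * M * (b + 2) * 2 ^ t + 2 ^ t * M := by ring
    rw [e1]
    generalize 2 ^ t * M * (b + 2) * 2 ^ t = a1 at hcit1 hcit3 ⊢
    generalize 2 ^ t * M = a2 at hcit3 ⊢
    generalize (2 ^ t) ^ (b + 2) = a3 at hcit2 ⊢
    clear * - hcit1 hcit2 hcit3 hK1000
    have x1 : 2 * (7 * (2 * (a1 + a3) + 1) + 1) ≤ K := by omega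
    have x2 : 2 * (8 * (a1 + a2) + 5) ≤ K := by omega
    have x3 : 2 * a2 ≤ K := by omega
    have x4 : 2 * a3 ≤ K := by omega
    have y1 := Nat.mul_le_mul x1 x2
    have y2 := Nat.mul_le_mul x3 x4
    nlinarith
  clear * - hGood h64 f1 f2 hfin hK3 hu hmain hj0
  refine ⟨2 ^ t, M, m, s, w, 2 ^ t, h, hGood, by omega, by positivity, by omega, hfin, ?_, ?_⟩
  · refine hK3.trans (le_of_eq ?_)
    rw [← hu]
    push_cast
    ring
  · intro z hz
    obtain ⟨z1, z2⟩ := hmain z hz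
    rw [← hj0]
    refine ⟨z1, ?_⟩
    exact_mod_cast z2

end Pool.Agent.Y612.Sat
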